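import Pool.Agent.Q109.TD2.Main

/-!
# Treedepth and 2-treedepth by their recursive definitions
-/

namespace Q109.TD2

open Classical

variable {V : Type}

/-- `C` is (the vertex set of) a component of `G[S]`: a maximal subset of `S` inducing a
connected graph -/
def IsComponent (G : SimpleGraph V) (S C : Finset V) : Prop :=
  C ⊆ S ∧ (G.induce (C : Set V)).Connected ∧
    ∀ D : Finset V, D ⊆ S → C ⊆ D → (G.induce (D : Set V)).Connected → D = C

/-- `v` is a cut-vertex of `G[S]`: deleting it increases the number of components -/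
def IsCutVertex (G : SimpleGraph V) (S : Finset V) (v : V) : Prop :=
  v ∈ S ∧ Nat.card (G.induce (S : Set V)).ConnectedComponent <
    Nat.card (G.induce ((S.erase v : Finset V) : Set V)).ConnectedComponent

/-- `G[S]` is connected and has no cut-vertex -/
def ConnNoCut (G : SimpleGraph V) (S : Finset V) : Prop :=
  (G.induce (S : Set V)).Connected ∧ ∀ v, ¬ IsCutVertex G S v

/-- `B` is (the vertex set of) a block of `G[S]`: a maximal subset of `S` inducing a connected
graph without cut-vertex -/
def IsBlock (G : SimpleGraph V) (S B : Finset V) : Prop :=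
  B ⊆ S ∧ ConnNoCut G B ∧ ∀ D : Finset V, D ⊆ S → B ⊆ D → ConnNoCut G D → D = B

/-- treedepth of `G[S]` -/
noncomputable def td (G : SimpleGraph V) (S : Finset V) : ℕ :=
  if S = ∅ then 0
  else if (G.induce (S : Set V)).Connected then
    1 + ⨅ v : {v : V // v ∈ S}, td G (S.erase v.1)
  else ⨆ C : {C : Finset V // IsComponent G S C ∧ C ⊂ S}, td G C.1
termination_by S.card
decreasing_by
  · exact Finset.card_erase_lt_of_mem v.2
  · exact Finset.card_lt_card C.2.2

/-- 2-treedepth of `G[S]` -/
noncomputable def td2 (G : SimpleGraph V) (S : Finset V) : ℕ :=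
  if S = ∅ then 0
  else if ConnNoCut G S then
    1 + ⨅ v : {v : V // v ∈ S}, td2 G (S.erase v.1)
  else ⨆ B : {B : Finset V // IsBlock G S B ∧ B ⊂ S}, td2 G B.1
termination_by S.card
decreasing_by
  · exact Finset.card_erase_lt_of_mem v.2
  · exact Finset.card_lt_card B.2.2

variable {G : SimpleGraph V}

/-- when `G[S]` is not connected, the condition `C ⊂ S` in the definition of `td` is automatic -/
theorem IsComponent.ssubset {S C : Finset V} (h : IsComponent G S C)
    (hS : ¬ (G.induce (S : Set V)).Connected) : C ⊂ S := by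
  refine Finset.ssubset_iff_subset_ne.mpr ⟨h.1, ?_⟩
  rintro rfl
  exact hS h.2.1

/-- when `G[S]` is not itself a block, the condition `B ⊂ S` in the definition of `td2` is
automatic -/
theorem IsBlock.ssubset {S B : Finset V} (h : IsBlock G S B) (hS : ¬ ConnNoCut G S) : B ⊂ S := by
  refine Finset.ssubset_iff_subset_ne.mpr ⟨h.1, ?_⟩
  rintro rfl
  exact hS h.2.1

/-! ### connectivity -/

theorem conn_iff {S : Finset V} {u w : V} :
    Conn G S u w ↔ ∃ (hu : u ∈ (S : Set V)) (hw : w ∈ (S : Set V)),
      (G.induce (S : Set V)).Reachable ⟨u, hu⟩ ⟨w, hw⟩ := by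
  constructor
  · rintro ⟨n, T, h1, h2⟩
    induction h1 with
    | single u =>
      have hu : u ∈ (S : Set V) := h2 (Finset.mem_singleton_self u)
      exact ⟨hu, hu, SimpleGraph.Reachable.refl _⟩
    | cons u v w n T hu hadj _ h ih =>
      obtain ⟨hv, hw, hr⟩ := ih ((Finset.subset_insert _ _).trans h2)
      have hu' : u ∈ (S : Set V) := h2 (Finset.mem_insert_self _ _)
      refine ⟨hu', hw, ?_⟩
      have hadj' : (G.induce (S : Set V)).Adj ⟨u, hu'⟩ ⟨v, hv⟩ := hadj
      exact hadj'.reachable.trans hr
  · rintro ⟨hu, hw, hr⟩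
    rw [SimpleGraph.reachable_iff_reflTransGen] at hr
    have key : ∀ z : (S : Set V),
        Relation.ReflTransGen (G.induce (S : Set V)).Adj z ⟨w, hw⟩ → Conn G S z.1 w := by
      intro z hz
      induction hz using Relation.ReflTransGen.head_induction_on with
      | refl => exact Conn.refl hw
      | head h1 _ ih => exact ih.step (Subtype.prop _) h1
    exact key _ hr

theorem connected_iff {S : Finset V} :
    (G.induce (S : Set V)).Connected ↔ S.Nonempty ∧ ∀ u ∈ S, ∀ w ∈ S, Conn G S u w := by
  constructor
  · intro h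
    obtain ⟨⟨v, hv⟩⟩ := h.nonempty
    refine ⟨⟨v, hv⟩, ?_⟩
    intro u hu w hw
    exact conn_iff.mpr ⟨hu, hw, h.preconnected _ _⟩
  · rintro ⟨⟨v, hv⟩, h⟩
    have : Nonempty (S : Set V) := ⟨⟨v, hv⟩⟩
    refine ⟨?_⟩
    intro u w
    obtain ⟨_, _, hr⟩ := conn_iff.mp (h u.1 u.2 w.1 w.2)
    exact hr

theorem card_comp_le {W : Type} [Finite W] (H : SimpleGraph W) :
    Nat.card H.ConnectedComponent ≤ 1 ↔ H.Preconnected := by
  rw [Finite.card_le_one_iff_subsingleton]
  constructor
  · intro h u w
    exact SimpleGraph.ConnectedComponent.exact (Subsingleton.elim _ _)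
  · intro h
    exact h.subsingleton_connectedComponent

theorem connNoCut_iff {S : Finset V} :
    ConnNoCut G S ↔ (G.induce (S : Set V)).Connected ∧
      ∀ v ∈ S, ∀ u ∈ S.erase v, ∀ w ∈ S.erase v, Conn G (S.erase v) u w := by
  unfold ConnNoCut
  refine and_congr_right ?_
  intro hconn
  have hcard : Nat.card (G.induce (S : Set V)).ConnectedComponent = 1 := by
    apply le_antisymm
    · exact (card_comp_le _).mpr hconn.preconnected
    · obtain ⟨v⟩ := hconn.nonempty
      have : Nonempty (G.induce (S : Set V)).ConnectedComponent :=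
        ⟨(G.induce (S : Set V)).connectedComponentMk v⟩
      exact Nat.card_pos
  constructor
  · intro h v hv u hu w hw
    have h1 := h v
    unfold IsCutVertex at h1
    rw [hcard, not_and, not_lt, card_comp_le] at h1
    exact conn_iff.mpr ⟨hu, hw, h1 hv _ _⟩
  · intro h v hv
    obtain ⟨hv, hv'⟩ := hv
    rw [hcard] at hv'
    have : Nat.card (G.induce ((S.erase v : Finset V) : Set V)).ConnectedComponent ≤ 1 := by
      rw [card_comp_le]
      intro u w
      obtain ⟨_, _, hr⟩ := conn_iff.mp (h v hv u.1 u.2 w.1 w.2)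
      exact hr
    omega

/-! ### treedepth -/

theorem TDle.mono {d d' : ℕ} {S : Finset V} (h : TDle G d S) (hd : d ≤ d') : TDle G d' S := by
  induction h generalizing d' with
  | empty d => exact TDle.empty d'
  | apex d S v hv _ ih =>
    obtain ⟨j, rfl⟩ : ∃ j, d' = j + 1 := ⟨d' - 1, by omega⟩
    exact TDle.apex j S v hv (ih (by omega))
  | union d A B hn _ _ ihA ihB => exact TDle.union d' A B hn (ihA hd) (ihB hd)

theorem TDle.subset {d : ℕ} {S : Finset V} (h : TDle G d S) : ∀ S', S' ⊆ S → TDle G d S' := by
  induction h with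
  | empty d =>
    intro S' hS'
    rw [Finset.subset_empty.mp hS']
    exact TDle.empty d
  | apex d S v hv _ ih =>
    intro S' hS'
    have h1 := ih (S'.erase v) (Finset.erase_subset_erase _ hS')
    by_cases hvS : v ∈ S'
    · exact TDle.apex d S' v hvS h1
    · rw [Finset.erase_eq_of_notMem hvS] at h1
      exact h1.mono (by omega)
  | union d A B hn _ _ ihA ihB =>
    intro S' hS'
    have e : S' = (A ∩ S') ∪ (B ∩ S') := by
      ext y
      simp only [Finset.mem_union, Finset.mem_inter]
      constructor
      · intro hy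
        have := hS' hy
        rw [Finset.mem_union] at this
        tauto
      · tauto
    rw [e]
    refine TDle.union d _ _ ?_ (ihA _ Finset.inter_subset_left) (ihB _ Finset.inter_subset_left)
    intro a ha b hb
    exact hn a (Finset.mem_of_mem_inter_left ha) b (Finset.mem_of_mem_inter_left hb)

theorem TDle.inv {d : ℕ} {S : Finset V} (h : TDle G d S) (hne : S.Nonempty) :
    (∃ d' v, d = d' + 1 ∧ v ∈ S ∧ TDle G d' (S.erase v)) ∨
    (∃ A B, S = A ∪ B ∧ A.Nonempty ∧ B.Nonempty ∧
      (∀ a ∈ A, ∀ b ∈ B, a ≠ b ∧ ¬ G.Adj a b) ∧ TDle G d A ∧ TDle G d B) := by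
  induction h with
  | empty d => exact absurd hne (by simp)
  | apex d S v hv h _ => exact Or.inl ⟨d, v, rfl, hv, h⟩
  | union d A B hn hA hB ihA ihB =>
    by_cases h1 : A.Nonempty
    · by_cases h2 : B.Nonempty
      · exact Or.inr ⟨A, B, rfl, h1, h2, hn, hA, hB⟩
      · rw [Finset.not_nonempty_iff_eq_empty] at h2
        subst h2
        rw [Finset.union_empty] at hne ⊢
        exact ihA hne
    · rw [Finset.not_nonempty_iff_eq_empty] at h1
      subst h1
      rw [Finset.empty_union] at hne ⊢
      exact ihB hne

/-- a path from `A` cannot reach `B` when there are no edges -/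
theorem IP.stuck {A B : Finset V} (hn : ∀ a ∈ A, ∀ b ∈ B, a ≠ b ∧ ¬ G.Adj a b) {u w : V} {n : ℕ}
    {T : Finset V} (h : IP G u w n T) (hT : T ⊆ A ∪ B) (hu : u ∈ A) : w ∈ A := by
  induction h with
  | single u => exact hu
  | cons u v w n T _ hadj _ h ih =>
    refine ih ((Finset.subset_insert _ _).trans hT) ?_
    have hv : v ∈ A ∪ B := hT (Finset.mem_insert_of_mem h.left)
    rcases Finset.mem_union.mp hv with hv | hv
    · exact hv
    · exact absurd hadj (hn u hu v hv).2

theorem exists_component {S D : Finset V} (hD : D ⊆ S) (hc : (G.induce (D : Set V)).Connected) :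
    ∃ C, IsComponent G S C ∧ D ⊆ C := by
  obtain ⟨C, h1, h2⟩ := Finset.exists_le_maximal
    (S.powerset.filter (fun C : Finset V => (G.induce (C : Set V)).Connected))
    (Finset.mem_filter.mpr ⟨Finset.mem_powerset.mpr hD, hc⟩)
  have h3 := h2.prop
  rw [Finset.mem_filter, Finset.mem_powerset] at h3
  refine ⟨C, ⟨h3.1, h3.2, ?_⟩, h1⟩
  intro D' h4 h5 h6
  exact le_antisymm (h2.le_of_ge (Finset.mem_filter.mpr ⟨Finset.mem_powerset.mpr h4, h6⟩) h5) h5

theorem exists_block {S D : Finset V} (hD : D ⊆ S) (hc : ConnNoCut G D) :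
    ∃ C, IsBlock G S C ∧ D ⊆ C := by
  obtain ⟨C, h1, h2⟩ := Finset.exists_le_maximal
    (S.powerset.filter (fun C => ConnNoCut G C))
    (Finset.mem_filter.mpr ⟨Finset.mem_powerset.mpr hD, hc⟩)
  have h3 := h2.prop
  rw [Finset.mem_filter, Finset.mem_powerset] at h3
  refine ⟨C, ⟨h3.1, h3.2, ?_⟩, h1⟩
  intro D' h4 h5 h6
  exact le_antisymm (h2.le_of_ge (Finset.mem_filter.mpr ⟨Finset.mem_powerset.mpr h4, h6⟩) h5) h5

theorem TDle_of_connected (d n : ℕ) : ∀ S : Finset V, S.card = n →
    (∀ D ⊆ S, (G.induce (D : Set V)).Connected → TDle G d D) → TDle G d S := by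
  induction n using Nat.strong_induction_on with
  | _ n ih =>
    intro S hS h
    by_cases hne : S.Nonempty
    swap
    · rw [Finset.not_nonempty_iff_eq_empty] at hne
      subst hne
      exact TDle.empty d
    by_cases hc : (G.induce (S : Set V)).Connected
    · exact h S subset_rfl hc
    · rw [connected_iff] at hc
      push Not at hc
      obtain ⟨u, hu, w, hw, hnc⟩ := hc hne
      have hsub := comp_subset (G := G) S w
      have hsub2 : S \ comp G S w ⊆ S := Finset.sdiff_subset
      rw [← Finset.union_sdiff_of_subset hsub]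
      refine TDle.union d _ _ comp_rest ?_ ?_
      · refine ih _ ?_ _ rfl (fun D hD => h D (hD.trans hsub))
        rw [← hS]
        refine Finset.card_lt_card (Finset.ssubset_iff_subset_ne.mpr ⟨hsub, ?_⟩)
        intro e
        rw [← e] at hu
        exact hnc (mem_comp.mp hu).2
      · refine ih _ ?_ _ rfl (fun D hD => h D (hD.trans hsub2))
        rw [← hS]
        refine Finset.card_lt_card (Finset.ssubset_iff_subset_ne.mpr ⟨hsub2, ?_⟩)
        intro e
        have hw' : w ∈ S \ comp G S w := by
          rw [e]
          exact hw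
        exact (Finset.mem_sdiff.mp hw').2 (self_mem_comp hw)

theorem T2_of_blocks (k n : ℕ) : ∀ S : Finset V, S.card = n →
    (∀ D ⊆ S, ConnNoCut G D → T2 G k D) → T2 G k S := by
  induction n using Nat.strong_induction_on with
  | _ n ih =>
    intro S hS h
    by_cases hne : S.Nonempty
    swap
    · rw [Finset.not_nonempty_iff_eq_empty] at hne
      subst hne
      exact T2.empty k
    by_cases hc : ConnNoCut G S
    · exact h S subset_rfl hc
    · rw [connNoCut_iff, connected_iff] at hc
      by_cases hc' : ∀ u ∈ S, ∀ w ∈ S, Conn G S u w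
      · have hc2 : ¬ ∀ v ∈ S, ∀ u ∈ S.erase v, ∀ w ∈ S.erase v, Conn G (S.erase v) u w :=
          fun h => hc ⟨⟨hne, hc'⟩, h⟩
        push Not at hc2
        obtain ⟨v, hv, u, hu, w, hw, hnc⟩ := hc2
        have hsub : comp G (S.erase v) w ⊆ S :=
          (comp_subset _ _).trans (Finset.erase_subset _ _)
        have hvC : v ∉ comp G (S.erase v) w := fun h =>
          Finset.notMem_erase v S (comp_subset _ _ h)
        have hA : insert v (comp G (S.erase v) w) ⊆ S := Finset.insert_subset hv hsub
        have hB : S \ comp G (S.erase v) w ⊆ S := Finset.sdiff_subset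
        have e : S = insert v (comp G (S.erase v) w) ∪ (S \ comp G (S.erase v) w) := by
          ext y
          simp only [Finset.mem_union, Finset.mem_insert, Finset.mem_sdiff]
          constructor
          · intro hy
            by_cases hy' : y ∈ comp G (S.erase v) w
            · exact Or.inl (Or.inr hy')
            · exact Or.inr ⟨hy, hy'⟩
          · rintro ((rfl | h1) | h1)
            · exact hv
            · exact hsub h1
            · exact h1.1
        have hTA : T2 G k (insert v (comp G (S.erase v) w)) := by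
          refine ih _ ?_ _ rfl (fun D hD => h D (hD.trans hA))
          rw [← hS]
          refine Finset.card_lt_card (Finset.ssubset_iff_subset_ne.mpr ⟨hA, ?_⟩)
          intro e
          have hu' : u ∈ S := Finset.mem_of_mem_erase hu
          rw [← e, Finset.mem_insert] at hu'
          rcases hu' with h1 | h1
          · exact (Finset.mem_erase.mp hu).1 h1
          · exact hnc (mem_comp.mp h1).2
        have hTB : T2 G k (S \ comp G (S.erase v) w) := by
          refine ih _ ?_ _ rfl (fun D hD => h D (hD.trans hB))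
          rw [← hS]
          refine Finset.card_lt_card (Finset.ssubset_iff_subset_ne.mpr ⟨hB, ?_⟩)
          intro e
          have hw' : w ∈ S \ comp G (S.erase v) w := by
            rw [e]
            exact Finset.mem_of_mem_erase hw
          exact (Finset.mem_sdiff.mp hw').2 (self_mem_comp hw)
        rw [e]
        refine T2.sep k _ _ v ⟨?_, ?_⟩ hTA hTB
        · intro y h1 h2
          rw [Finset.mem_insert] at h1
          rw [Finset.mem_sdiff] at h2
          exact h1.resolve_right h2.2
        · intro y h1 z h2 h3 h4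
          have hyv : y ≠ v := by
            rintro rfl
            exact h3 (Finset.mem_sdiff.mpr ⟨hv, hvC⟩)
          have hzv : z ≠ v := by
            rintro rfl
            exact h4 (Finset.mem_insert_self _ _)
          have hyC := (Finset.mem_insert.mp h1).resolve_left hyv
          have hz := Finset.mem_sdiff.mp h2
          exact (comp_rest y hyC z (Finset.mem_sdiff.mpr
            ⟨Finset.mem_erase.mpr ⟨hzv, hz.1⟩, hz.2⟩)).2
      · push Not at hc'
        obtain ⟨u, hu, w, hw, hnc⟩ := hc'
        have hsub := comp_subset (G := G) S w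
        have hsub2 : S \ comp G S w ⊆ S := Finset.sdiff_subset
        rw [← Finset.union_sdiff_of_subset hsub]
        refine T2.sep k _ _ w ⟨?_, ?_⟩ ?_ ?_
        · intro y h1 h2
          exact absurd h1 (Finset.mem_sdiff.mp h2).2
        · intro y h1 z h2 _ _
          exact (comp_rest y h1 z h2).2
        · refine ih _ ?_ _ rfl (fun D hD => h D (hD.trans hsub))
          rw [← hS]
          refine Finset.card_lt_card (Finset.ssubset_iff_subset_ne.mpr ⟨hsub, ?_⟩)
          intro e
          rw [← e] at hu
          exact hnc (mem_comp.mp hu).2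
        · refine ih _ ?_ _ rfl (fun D hD => h D (hD.trans hsub2))
          rw [← hS]
          refine Finset.card_lt_card (Finset.ssubset_iff_subset_ne.mpr ⟨hsub2, ?_⟩)
          intro e
          have hw' : w ∈ S \ comp G S w := by
            rw [e]
            exact hw
          exact (Finset.mem_sdiff.mp hw').2 (self_mem_comp hw)

/-! ### comparison of the recursive definitions with the predicates -/

variable [Fintype V]

theorem td_le_iff (n : ℕ) : ∀ (S : Finset V), S.card = n → ∀ d, td G S ≤ d ↔ TDle G d S := by
  induction n using Nat.strong_induction_on with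
  | _ n ih =>
    intro S hS d
    by_cases hne : S = ∅
    · subst hne
      rw [td, if_pos rfl]
      exact ⟨fun _ => TDle.empty d, fun _ => Nat.zero_le _⟩
    have hne' : S.Nonempty := Finset.nonempty_iff_ne_empty.mpr hne
    rw [td, if_neg hne]
    by_cases hc : (G.induce (S : Set V)).Connected
    · rw [if_pos hc]
      have : Nonempty {v : V // v ∈ S} := ⟨⟨hne'.choose, hne'.choose_spec⟩⟩
      constructor
      · intro h
        obtain ⟨v, hv⟩ := exists_eq_ciInf_of_finite (f := fun v : {v : V // v ∈ S} =>
          td G (S.erase v.1))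
        obtain ⟨j, rfl⟩ : ∃ j, d = j + 1 := ⟨d - 1, by omega⟩
        refine TDle.apex j S v.1 v.2 ?_
        refine (ih _ ?_ (S.erase v.1) rfl j).mp ?_
        · rw [← hS]
          exact Finset.card_erase_lt_of_mem v.2
        · change td G (S.erase v.1) = _ at hv
          omega
      · intro h
        rcases h.inv hne' with ⟨d', v, rfl, hv, h1⟩ | ⟨A, B, rfl, hA, hB, hn, -, -⟩
        · have h2 := (ih _ (hS ▸ Finset.card_erase_lt_of_mem hv) (S.erase v) rfl d').mpr h1
          have h3 : (⨅ v : {v : V // v ∈ S}, td G (S.erase v.1)) ≤ td G (S.erase v) :=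
            ciInf_le (OrderBot.bddBelow _) (⟨v, hv⟩ : {v : V // v ∈ S})
          omega
        · exfalso
          obtain ⟨a, ha⟩ := hA
          obtain ⟨b, hb⟩ := hB
          obtain ⟨m, T, h1, h2⟩ := (connected_iff.mp hc).2 a (Finset.mem_union_left _ ha) b
            (Finset.mem_union_right _ hb)
          exact (hn b (h1.stuck hn h2 ha) b hb).1 rfl
    · rw [if_neg hc]
      constructor
      · intro h
        refine TDle_of_connected d n S hS ?_
        intro D hD hDc
        obtain ⟨C, hC, hDC⟩ := exists_component hD hDc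
        have h1 : td G C ≤ ⨆ C : {C : Finset V // IsComponent G S C ∧ C ⊂ S}, td G C.1 :=
          le_ciSup (f := fun C : {C : Finset V // IsComponent G S C ∧ C ⊂ S} => td G C.1)
            (Set.finite_range _).bddAbove ⟨C, hC, hC.ssubset hc⟩
        have h2 := (ih _ (hS ▸ Finset.card_lt_card (hC.ssubset hc)) C rfl d).mp (h1.trans h)
        exact h2.subset D hDC
      · intro h
        by_cases hemp : Nonempty {C : Finset V // IsComponent G S C ∧ C ⊂ S}
        · refine ciSup_le ?_
          intro C
          exact (ih _ (hS ▸ Finset.card_lt_card C.2.2) C.1 rfl d).mpr (h.subset _ C.2.1.1)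
        · rw [not_nonempty_iff] at hemp
          rw [ciSup_of_empty]
          exact Nat.zero_le _

theorem td2_le_iff (n : ℕ) : ∀ (S : Finset V), S.card = n → ∀ k, td2 G S ≤ k ↔ T2 G k S := by
  induction n using Nat.strong_induction_on with
  | _ n ih =>
    intro S hS k
    by_cases hne : S = ∅
    · subst hne
      rw [td2, if_pos rfl]
      exact ⟨fun _ => T2.empty k, fun _ => Nat.zero_le _⟩
    have hne' : S.Nonempty := Finset.nonempty_iff_ne_empty.mpr hne
    rw [td2, if_neg hne]
    by_cases hc : ConnNoCut G S
    · rw [if_pos hc]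
      have : Nonempty {v : V // v ∈ S} := ⟨⟨hne'.choose, hne'.choose_spec⟩⟩
      constructor
      · intro h
        obtain ⟨v, hv⟩ := exists_eq_ciInf_of_finite (f := fun v : {v : V // v ∈ S} =>
          td2 G (S.erase v.1))
        obtain ⟨j, rfl⟩ : ∃ j, k = j + 1 := ⟨k - 1, by omega⟩
        refine T2.apex j S v.1 v.2 ?_
        refine (ih _ ?_ (S.erase v.1) rfl j).mp ?_
        · rw [← hS]
          exact Finset.card_erase_lt_of_mem v.2
        · change td2 G (S.erase v.1) = _ at hv
          omega
      · intro h
        rcases h.inv hne' with ⟨d', v, rfl, hv, h1⟩ | ⟨A, B, x, rfl, hA, hB, hsep, -, -⟩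
        · have h2 := (ih _ (hS ▸ Finset.card_erase_lt_of_mem hv) (S.erase v) rfl d').mpr h1
          have h3 : (⨅ v : {v : V // v ∈ S}, td2 G (S.erase v.1)) ≤ td2 G (S.erase v) :=
            ciInf_le (OrderBot.bddBelow _) (⟨v, hv⟩ : {v : V // v ∈ S})
          omega
        · exfalso
          obtain ⟨a, ha, haB⟩ := Finset.exists_of_ssubset hB
          obtain ⟨b, hb, hbA⟩ := Finset.exists_of_ssubset hA
          have haA : a ∈ A := (Finset.mem_union.mp ha).resolve_right haB
          rw [connNoCut_iff] at hc
          obtain ⟨m, T, h1, h2⟩ := (connected_iff.mp hc.1).2 b hb a ha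
          obtain ⟨h3, h4, h5, -⟩ := hsep.cross h1 h2 hbA haA
          have hbx : b ≠ x := by
            rintro rfl
            exact hbA h4
          have hax : a ≠ x := by
            rintro rfl
            exact haB h5
          obtain ⟨m', T', h6, h7⟩ := hc.2 x (h2 h3) b (Finset.mem_erase.mpr ⟨hbx, hb⟩) a
            (Finset.mem_erase.mpr ⟨hax, ha⟩)
          obtain ⟨h8, -⟩ := hsep.cross h6 (h7.trans (Finset.erase_subset _ _)) hbA haA
          exact Finset.notMem_erase x _ (h7 h8)
    · rw [if_neg hc]
      constructor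
      · intro h
        refine T2_of_blocks k n S hS ?_
        intro D hD hDc
        obtain ⟨C, hC, hDC⟩ := exists_block hD hDc
        have h1 : td2 G C ≤ ⨆ C : {C : Finset V // IsBlock G S C ∧ C ⊂ S}, td2 G C.1 :=
          le_ciSup (f := fun C : {C : Finset V // IsBlock G S C ∧ C ⊂ S} => td2 G C.1)
            (Set.finite_range _).bddAbove ⟨C, hC, hC.ssubset hc⟩
        have h2 := (ih _ (hS ▸ Finset.card_lt_card (hC.ssubset hc)) C rfl k).mp (h1.trans h)
        exact h2.subset D hDC
      · intro h
        by_cases hemp : Nonempty {C : Finset V // IsBlock G S C ∧ C ⊂ S}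
        · refine ciSup_le ?_
          intro C
          exact (ih _ (hS ▸ Finset.card_lt_card C.2.2) C.1 rfl k).mpr (h.subset _ C.2.1.1)
        · rw [not_nonempty_iff] at hemp
          rw [ciSup_of_empty]
          exact Nat.zero_le _

end Q109.TD2
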