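import Mathlib

/-!
# Induced paths as inductive objects, the one-separation predicate, eliminations with budgets
-/

namespace Q109.TD2

variable {V : Type} [DecidableEq V] {G : SimpleGraph V}

/-- `IP G u w n T`: there is an induced path from `u` to `w` with `n` vertices and vertex
set `T` -/
inductive IP (G : SimpleGraph V) : V → V → ℕ → Finset V → Prop
  | single (u : V) : IP G u u 1 {u}
  | cons (u v w : V) (n : ℕ) (T : Finset V) : u ∉ T → G.Adj u v →
      (∀ x ∈ T, x ≠ v → ¬ G.Adj u x) → IP G v w n T → IP G u w (n + 1) (insert u T)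

theorem IP.left {u w : V} {n : ℕ} {T : Finset V} (h : IP G u w n T) : u ∈ T := by
  cases h <;> simp

theorem IP.right {u w : V} {n : ℕ} {T : Finset V} (h : IP G u w n T) : w ∈ T := by
  induction h with
  | single u => simp
  | cons u v w n T _ _ _ _ ih => exact Finset.mem_insert_of_mem ih

theorem IP.card {u w : V} {n : ℕ} {T : Finset V} (h : IP G u w n T) : T.card = n := by
  induction h with
  | single u => simp
  | cons u v w n T hu _ _ _ ih => rw [Finset.card_insert_of_notMem hu, ih]

theorem IP.two {u w : V} {n : ℕ} {T : Finset V} (h : IP G u w n T) (huw : u ≠ w) : 2 ≤ n := by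
  rw [← h.card]
  have : ({u, w} : Finset V) ⊆ T := by
    intro x hx
    simp only [Finset.mem_insert, Finset.mem_singleton] at hx
    rcases hx with rfl | rfl
    · exact h.left
    · exact h.right
  calc 2 = ({u, w} : Finset V).card := (Finset.card_pair huw).symm
    _ ≤ T.card := Finset.card_le_card this

theorem IP.three {u w x : V} {n : ℕ} {T : Finset V} (h : IP G u w n T) (huw : u ≠ w)
    (hx : x ∈ T) (hxu : x ≠ u) (hxw : x ≠ w) : 3 ≤ n := by
  rw [← h.card]
  have : ({x, u, w} : Finset V) ⊆ T := by
    intro y hy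
    simp only [Finset.mem_insert, Finset.mem_singleton] at hy
    rcases hy with rfl | rfl | rfl
    · exact hx
    · exact h.left
    · exact h.right
  calc 3 = ({x, u, w} : Finset V).card := by
        rw [Finset.card_insert_of_notMem (by simp [hxu, hxw]), Finset.card_pair huw]
    _ ≤ T.card := Finset.card_le_card this

/-- suffixes -/
theorem IP.suffix {u w : V} {n : ℕ} {T : Finset V} (h : IP G u w n T) :
    ∀ x ∈ T, ∃ n' T', IP G x w n' T' ∧ T' ⊆ T := by
  induction h with
  | single u =>
    intro x hx
    rw [Finset.mem_singleton] at hx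
    subst hx
    exact ⟨1, {x}, IP.single x, subset_rfl⟩
  | cons u v w n T hu hadj hnon h ih =>
    intro x hx
    rcases Finset.mem_insert.mp hx with rfl | hx
    · exact ⟨_, _, IP.cons _ v w n T hu hadj hnon h, subset_rfl⟩
    · obtain ⟨n', T', h1, h2⟩ := ih x hx
      exact ⟨n', T', h1, h2.trans (Finset.subset_insert _ _)⟩

/-- extension by a neighbour of the path -/
theorem IP.extend {v w : V} {n : ℕ} {T : Finset V} (h : IP G v w n T) (u : V) (hu : u ∉ T)
    (hadj : ∃ x ∈ T, G.Adj u x) : ∃ n' T', IP G u w n' T' ∧ T' ⊆ insert u T := by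
  induction h with
  | single v =>
    obtain ⟨x, hx, hux⟩ := hadj
    rw [Finset.mem_singleton] at hx
    subst hx
    refine ⟨2, insert u {x}, IP.cons u x x 1 {x} hu hux ?_ (IP.single x), subset_rfl⟩
    intro y hy hyx
    exact absurd (Finset.mem_singleton.mp hy) hyx
  | cons v v' w n T hv hvadj hnon h ih =>
    by_cases hT : ∃ x ∈ T, G.Adj u x
    · obtain ⟨n', T', h1, h2⟩ := ih (fun hu' => hu (Finset.mem_insert_of_mem hu')) hT
      exact ⟨n', T', h1, h2.trans (Finset.insert_subset_insert _ (Finset.subset_insert _ _))⟩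
    · push Not at hT
      have huv : G.Adj u v := by
        obtain ⟨x, hx, hux⟩ := hadj
        rcases Finset.mem_insert.mp hx with rfl | hx
        · exact hux
        · exact absurd hux (hT x hx)
      refine ⟨_, _, IP.cons u v w (n + 1) (insert v T) hu huv ?_
        (IP.cons v v' w n T hv hvadj hnon h), subset_rfl⟩
      intro x hx hxv
      rcases Finset.mem_insert.mp hx with rfl | hx
      · exact absurd rfl hxv
      · exact hT x hx

/-- appending a vertex at the end -/
theorem IP.snoc {u w : V} {n : ℕ} {T : Finset V} (h : IP G u w n T) (z : V) (hz : z ∉ T)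
    (hwz : G.Adj w z) (hnon : ∀ x ∈ T, x ≠ w → ¬ G.Adj z x) :
    IP G u z (n + 1) (insert z T) := by
  induction h with
  | single u =>
    have hne : u ≠ z := fun e => hz (by simp [e])
    have h1 : IP G u z 2 (insert u {z}) := by
      refine IP.cons u z z 1 {z} (by simp [hne]) hwz ?_ (IP.single z)
      intro x hx hxz
      exact absurd (Finset.mem_singleton.mp hx) hxz
    rwa [Finset.pair_comm] at h1
  | cons u v w n T hu hadj hnon' h ih =>
    have hzT : z ∉ T := fun h => hz (Finset.mem_insert_of_mem h)
    have h1 := ih hzT hwz (fun x hx hxw => hnon x (Finset.mem_insert_of_mem hx) hxw)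
    have huz : u ≠ z := fun e => hz (by simp [e])
    have h2 : IP G u z (n + 1 + 1) (insert u (insert z T)) := by
      refine IP.cons u v z (n + 1) (insert z T) ?_ hadj ?_ h1
      · rw [Finset.mem_insert, not_or]
        exact ⟨huz, hu⟩
      · intro x hx hxv
        rcases Finset.mem_insert.mp hx with rfl | hx
        · intro hux
          have hw : w ∈ T := h.right
          have huw : u ≠ w := fun e => hu (e ▸ hw)
          exact hnon u (Finset.mem_insert_self _ _) huw hux.symm
        · exact hnon' x hx hxv
    rwa [Finset.insert_comm] at h2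

/-- reversal -/
theorem IP.symm {u w : V} {n : ℕ} {T : Finset V} (h : IP G u w n T) : IP G w u n T := by
  induction h with
  | single u => exact IP.single u
  | cons u v w n T hu hadj hnon _ ih =>
    exact ih.snoc u hu hadj.symm (fun x hx hxv => hnon x hx hxv)

/-- concatenation at a common vertex -/
theorem IP.concat {u x w : V} {n m : ℕ} {T₁ T₂ : Finset V} (h₁ : IP G u x n T₁)
    (h₂ : IP G x w m T₂) (hd : ∀ y ∈ T₁, y ∈ T₂ → y = x)
    (hn : ∀ y ∈ T₁, ∀ z ∈ T₂, y ≠ x → z ≠ x → ¬ G.Adj y z) :
    IP G u w (n + m - 1) (T₁ ∪ T₂) := by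
  induction h₁ with
  | single u =>
    have : ({u} : Finset V) ∪ T₂ = T₂ := by
      rw [Finset.union_eq_right, Finset.singleton_subset_iff]
      exact h₂.left
    rw [this]
    have e : 1 + m - 1 = m := by omega
    rw [e]
    exact h₂
  | cons u v x n T hu hadj hnon h ih =>
    have h1 := ih h₂ (fun y hy hy2 => hd y (Finset.mem_insert_of_mem hy) hy2)
      (fun y hy z hz => hn y (Finset.mem_insert_of_mem hy) z hz)
    have hm : 1 ≤ n := by
      rw [← h.card]
      exact Finset.card_pos.mpr ⟨_, h.left⟩
    have hux : u ≠ x := fun e => hu (e ▸ h.right)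
    have e : n + 1 + m - 1 = (n + m - 1) + 1 := by omega
    rw [e, Finset.insert_union]
    refine IP.cons u v w (n + m - 1) (T ∪ T₂) ?_ hadj ?_ h1
    · rw [Finset.mem_union, not_or]
      refine ⟨hu, fun h2 => hux (hd u (Finset.mem_insert_self _ _) h2)⟩
    · intro y hy hyv
      rcases Finset.mem_union.mp hy with hy | hy
      · exact hnon y hy hyv
      · by_cases hyx : y = x
        · subst hyx
          exact hnon y h.right hyv
        · exact hn u (Finset.mem_insert_self _ _) y hy hux hyx

/-! ### Connection inside a set -/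

/-- `u` is joined to `w` by an induced path inside `S` -/
def Conn (G : SimpleGraph V) (S : Finset V) (u w : V) : Prop := ∃ n T, IP G u w n T ∧ T ⊆ S

theorem Conn.refl {S : Finset V} {u : V} (h : u ∈ S) : Conn G S u u :=
  ⟨1, {u}, IP.single u, by simpa using h⟩

theorem Conn.step {S : Finset V} {u v w : V} (h : Conn G S v w) (hu : u ∈ S)
    (huv : G.Adj u v) : Conn G S u w := by
  obtain ⟨n, T, h1, h2⟩ := h
  by_cases huT : u ∈ T
  · obtain ⟨n', T', h3, h4⟩ := h1.suffix u huT
    exact ⟨n', T', h3, h4.trans h2⟩
  · obtain ⟨n', T', h3, h4⟩ := h1.extend u huT ⟨v, h1.left, huv⟩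
    exact ⟨n', T', h3, h4.trans (Finset.insert_subset hu h2)⟩

/-- separation condition: `A` and `B` share at most `x`, no edges otherwise -/
structure Sep (G : SimpleGraph V) (A B : Finset V) (x : V) : Prop where
  inter : ∀ y ∈ A, y ∈ B → y = x
  noadj : ∀ y ∈ A, ∀ z ∈ B, y ∉ B → z ∉ A → ¬ G.Adj y z

theorem Sep.symm {A B : Finset V} {x : V} (h : Sep G A B x) : Sep G B A x :=
  ⟨fun y h1 h2 => h.inter y h2 h1, fun y hy z hz h1 h2 h3 => h.noadj z hz y hy h2 h1 h3.symm⟩

/-- an induced path from `B \ A` to `A` passes through `x`, which lies in both sides, and has an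
initial segment inside `B` ending in `x` -/
theorem Sep.cross {A B : Finset V} {x : V} (h : Sep G A B x) {z c : V} {n : ℕ} {T : Finset V}
    (hp : IP G z c n T) (hT : T ⊆ A ∪ B) (hz : z ∉ A) (hc : c ∈ A) :
    x ∈ T ∧ x ∈ A ∧ x ∈ B ∧ ∃ n' T', IP G z x n' T' ∧ T' ⊆ T ∧ T' ⊆ B := by
  induction hp with
  | single u => exact absurd hc hz
  | cons u v w n T hu hadj hnon hp ih =>
    have huB : u ∈ B := by
      have := hT (Finset.mem_insert_self _ _)
      rw [Finset.mem_union] at this
      exact this.resolve_left hz
    have hT' : T ⊆ A ∪ B := (Finset.subset_insert _ _).trans hT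
    by_cases hvA : v ∈ A
    · have hvB : v ∈ B := by
        by_contra hvB
        exact h.noadj v hvA u huB hvB hz hadj.symm
      have hvx := h.inter v hvA hvB
      subst hvx
      refine ⟨Finset.mem_insert_of_mem hp.left, hvA, hvB, 2, insert u {v},
        IP.cons u v v 1 {v} ?_ hadj ?_ (IP.single v), ?_, ?_⟩
      · rw [Finset.mem_singleton]
        exact hadj.ne
      · intro y hy hyv
        exact absurd (Finset.mem_singleton.mp hy) hyv
      · intro y hy
        rw [Finset.mem_insert, Finset.mem_singleton] at hy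
        rcases hy with rfl | rfl
        · exact Finset.mem_insert_self _ _
        · exact Finset.mem_insert_of_mem hp.left
      · intro y hy
        rw [Finset.mem_insert, Finset.mem_singleton] at hy
        rcases hy with rfl | rfl
        · exact huB
        · exact hvB
    · obtain ⟨h1, h2, h3, n', T', h4, h5, h6⟩ := ih hT' hvA hc
      refine ⟨Finset.mem_insert_of_mem h1, h2, h3, n' + 1, insert u T',
        IP.cons u v x n' T' (fun h => hu (h5 h)) hadj (fun y hy hyv => hnon y (h5 hy) hyv) h4,
        Finset.insert_subset_insert _ h5, ?_⟩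
      intro y hy
      rcases Finset.mem_insert.mp hy with rfl | hy
      · exact huB
      · exact h6 hy

/-- an induced path between two vertices of `A` stays in `A` -/
theorem Sep.stay {A B : Finset V} {x : V} (h : Sep G A B x) {z c : V} {n : ℕ} {T : Finset V}
    (hp : IP G z c n T) (hT : T ⊆ A ∪ B) (hz : z ∈ A) (hc : c ∈ A) : T ⊆ A := by
  induction hp with
  | single u => simpa using hz
  | cons u v w n T hu hadj hnon hp ih =>
    have hT' : T ⊆ A ∪ B := (Finset.subset_insert _ _).trans hT
    have hvA : v ∈ A := by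
      by_contra hvA
      obtain ⟨h1, h2, h3, -⟩ := h.cross hp hT' hvA hc
      have hvB : v ∈ B := by
        have := hT' hp.left
        rw [Finset.mem_union] at this
        exact this.resolve_left hvA
      by_cases huB : u ∈ B
      · have := h.inter u hz huB
        exact hu (this ▸ h1)
      · exact h.noadj u hz v hvB huB hvA hadj
    exact Finset.insert_subset hz (ih hT' hvA hc)

/-! ### The predicate -/

/-- `T2 G k S`: `G[S]` is built within level `k` by adding apex vertices and by one-separations -/
inductive T2 (G : SimpleGraph V) : ℕ → Finset V → Prop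
  | empty (k : ℕ) : T2 G k ∅
  | apex (k : ℕ) (S : Finset V) (v : V) : v ∈ S → T2 G k (S.erase v) → T2 G (k + 1) S
  | sep (k : ℕ) (A B : Finset V) (x : V) : Sep G A B x → T2 G k A → T2 G k B → T2 G k (A ∪ B)

theorem T2.mono {k k' : ℕ} {S : Finset V} (h : T2 G k S) (hk : k ≤ k') : T2 G k' S := by
  induction h generalizing k' with
  | empty k => exact T2.empty k'
  | apex k S v hv _ ih =>
    obtain ⟨j, rfl⟩ : ∃ j, k' = j + 1 := ⟨k' - 1, by omega⟩
    exact T2.apex j S v hv (ih (by omega))
  | sep k A B x hs _ _ ihA ihB => exact T2.sep k' A B x hs (ihA hk) (ihB hk)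

theorem T2.subset {k : ℕ} {S : Finset V} (h : T2 G k S) : ∀ S', S' ⊆ S → T2 G k S' := by
  induction h with
  | empty k =>
    intro S' hS'
    rw [Finset.subset_empty.mp hS']
    exact T2.empty k
  | apex k S v hv _ ih =>
    intro S' hS'
    have h1 := ih (S'.erase v) (Finset.erase_subset_erase _ hS')
    by_cases hvS : v ∈ S'
    · exact T2.apex k S' v hvS h1
    · rw [Finset.erase_eq_of_notMem hvS] at h1
      exact h1.mono (by omega)
  | sep k A B x hs _ _ ihA ihB =>
    intro S' hS'
    have e : S' = (A ∩ S') ∪ (B ∩ S') := by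
      ext y
      simp only [Finset.mem_union, Finset.mem_inter]
      constructor
      · intro hy
        have := hS' hy
        rw [Finset.mem_union] at this
        tauto
      · tauto
    rw [e]
    refine T2.sep k _ _ x ⟨?_, ?_⟩ (ihA _ Finset.inter_subset_left) (ihB _ Finset.inter_subset_left)
    · intro y hy hy'
      exact hs.inter y (Finset.mem_of_mem_inter_left hy) (Finset.mem_of_mem_inter_left hy')
    · intro y hy z hz h1 h2
      rw [Finset.mem_inter] at hy hz h1 h2
      exact hs.noadj y hy.1 z hz.1 (fun h => h1 ⟨h, hy.2⟩) (fun h => h2 ⟨h, hz.2⟩)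

theorem T2.zero {S : Finset V} (h : T2 G 0 S) : S = ∅ := by
  generalize hk : (0 : ℕ) = k at h
  induction h with
  | empty k => rfl
  | apex k S v hv _ ih => omega
  | sep k A B x hs _ _ ihA ihB => rw [ihA hk, ihB hk]; rfl

theorem T2.inv {k : ℕ} {S : Finset V} (h : T2 G k S) (hne : S.Nonempty) :
    (∃ k' v, k = k' + 1 ∧ v ∈ S ∧ T2 G k' (S.erase v)) ∨
    (∃ A B x, S = A ∪ B ∧ A ⊂ S ∧ B ⊂ S ∧ Sep G A B x ∧ T2 G k A ∧ T2 G k B) := by
  induction h with
  | empty k => exact absurd hne (by simp)
  | apex k S v hv h _ => exact Or.inl ⟨k, v, rfl, hv, h⟩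
  | sep k A B x hs hA hB ihA ihB =>
    by_cases h1 : A = A ∪ B
    · rw [← h1] at hne ⊢
      exact ihA hne
    · by_cases h2 : B = A ∪ B
      · rw [← h2] at hne ⊢
        exact ihB hne
      · exact Or.inr ⟨A, B, x, rfl, Finset.ssubset_iff_subset_ne.mpr ⟨Finset.subset_union_left, h1⟩,
          Finset.ssubset_iff_subset_ne.mpr ⟨Finset.subset_union_right, h2⟩, hs, hA, hB⟩

/-! ### Eliminations with budgets -/

/-- `El G R β d S`: from depth `d`, the set `S` can be eliminated so that every vertex `v` of
`R` is eliminated at depth at most `β v` -/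
inductive El (G : SimpleGraph V) (R : V → Prop) (β : V → ℕ) : ℕ → Finset V → Prop
  | nil (d : ℕ) (S : Finset V) : (∀ v ∈ S, ¬ R v) → El G R β d S
  | step (d : ℕ) (S : Finset V) (v : V) : v ∈ S → (R v → d + 1 ≤ β v) →
      El G R β (d + 1) (S.erase v) → El G R β d S
  | union (d : ℕ) (A B : Finset V) : (∀ a ∈ A, ∀ b ∈ B, a ≠ b ∧ ¬ G.Adj a b) →
      El G R β d A → El G R β d B → El G R β d (A ∪ B)

theorem El.mono {R : V → Prop} {β : V → ℕ} {d d' : ℕ} {S : Finset V} (h : El G R β d S)
    (hd : d' ≤ d) : El G R β d' S := by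
  induction h generalizing d' with
  | nil d S h => exact El.nil d' S h
  | step d S v hv hβ _ ih =>
    exact El.step d' S v hv (fun h => by have := hβ h; omega) (ih (by omega))
  | union d A B hn _ _ ihA ihB => exact El.union d' A B hn (ihA hd) (ihB hd)

/-- hanging a set `Y` below the vertex `x` -/
theorem El.graft {R R' : V → Prop} {β β' : V → ℕ} {x : V} {A₀ Y : Finset V}
    (hno : ∀ a ∈ A₀, a ≠ x → ∀ b ∈ Y, a ≠ b ∧ ¬ G.Adj a b) (hxY : x ∉ Y)
    (hR : ∀ v ∈ A₀, R v → R' v ∧ β' v ≤ β v)
    (hY : (R' x ∧ El G R β (β' x) Y) ∨ (∀ b ∈ Y, ¬ R b)) {d : ℕ} {A' : Finset V}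
    (h : El G R' β' d A') : A' ⊆ A₀ →
      (x ∈ A' → El G R β d (A' ∪ Y)) ∧ (x ∉ A' → El G R β d A') := by
  induction h with
  | nil d S hS =>
    intro hsub
    constructor
    · intro hx
      rcases hY with ⟨hY, _⟩ | hY
      · exact absurd hY (hS x hx)
      · refine El.nil d _ ?_
        intro v hv hRv
        rcases Finset.mem_union.mp hv with hv | hv
        · exact hS v hv (hR v (hsub hv) hRv).1
        · exact hY v hv hRv
    · intro _
      exact El.nil d _ (fun v hv hRv => hS v hv (hR v (hsub hv) hRv).1)
  | step d S v hv hβ _ ih =>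
    intro hsub
    have ih' := ih ((Finset.erase_subset _ _).trans hsub)
    constructor
    · intro hx
      by_cases hvx : v = x
      · subst hvx
        refine El.step d _ v (Finset.mem_union_left _ hv) ?_ ?_
        · intro hRv
          obtain ⟨h1, h2⟩ := hR v (hsub hv) hRv
          exact (hβ h1).trans h2
        · have e : (S ∪ Y).erase v = S.erase v ∪ Y := by
            rw [Finset.erase_union_distrib, Finset.erase_eq_of_notMem hxY]
          rw [e]
          refine El.union (d + 1) _ _ ?_ (ih'.2 (Finset.notMem_erase _ _)) ?_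
          · intro a ha b hb
            rw [Finset.mem_erase] at ha
            exact hno a (hsub ha.2) ha.1 b hb
          · rcases hY with ⟨h1, h2⟩ | h1
            · exact h2.mono (hβ h1)
            · exact El.nil _ _ h1
      · have hvY : v ∉ Y := fun h => (hno v (hsub hv) hvx v h).1 rfl
        refine El.step d _ v (Finset.mem_union_left _ hv) ?_ ?_
        · intro hRv
          obtain ⟨h1, h2⟩ := hR v (hsub hv) hRv
          exact (hβ h1).trans h2
        · have e : (S ∪ Y).erase v = S.erase v ∪ Y := by
            rw [Finset.erase_union_distrib, Finset.erase_eq_of_notMem hvY]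
          rw [e]
          exact ih'.1 (Finset.mem_erase.mpr ⟨fun h => hvx h.symm, hx⟩)
    · intro hx
      refine El.step d S v hv ?_ (ih'.2 (fun h => hx (Finset.mem_of_mem_erase h)))
      intro hRv
      obtain ⟨h1, h2⟩ := hR v (hsub hv) hRv
      exact (hβ h1).trans h2
  | union d A B hn _ _ ihA ihB =>
    intro hsub
    have hA := ihA (Finset.subset_union_left.trans hsub)
    have hB := ihB (Finset.subset_union_right.trans hsub)
    constructor
    · intro hx
      rcases Finset.mem_union.mp hx with hx | hx
      · have hxB : x ∉ B := fun h => (hn x hx x h).1 rfl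
        have e : (A ∪ B) ∪ Y = (A ∪ Y) ∪ B := by
          rw [Finset.union_assoc, Finset.union_comm B Y, ← Finset.union_assoc]
        rw [e]
        refine El.union d _ _ ?_ (hA.1 hx) (hB.2 hxB)
        intro a ha b hb
        rcases Finset.mem_union.mp ha with ha | ha
        · exact hn a ha b hb
        · have hbx : b ≠ x := fun h => hxB (h ▸ hb)
          have := hno b (hsub (Finset.mem_union_right _ hb)) hbx a ha
          exact ⟨this.1.symm, fun h => this.2 h.symm⟩
      · have hxA : x ∉ A := fun h => (hn x h x hx).1 rfl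
        rw [Finset.union_assoc]
        refine El.union d _ _ ?_ (hA.2 hxA) (hB.1 hx)
        intro a ha b hb
        rcases Finset.mem_union.mp hb with hb | hb
        · exact hn a ha b hb
        · have hax : a ≠ x := fun h => hxA (h ▸ ha)
          exact hno a (hsub (Finset.mem_union_left _ ha)) hax b hb
    · intro hx
      rw [Finset.mem_union, not_or] at hx
      exact El.union d A B hn (hA.2 hx.1) (hB.2 hx.2)

end Q109.TD2
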