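import Pool.Agent.Q109.TD2.Defs

/-!
# The lower bound construction, and induced paths as embeddings
-/

namespace Q109.TD2

open Classical

/-- an induced path on `n` vertices as a function on the natural numbers -/
def HasPath {V : Type} (G : SimpleGraph V) (n : ℕ) : Prop :=
  ∃ f : ℕ → V, (∀ i j, i < n → j < n → f i = f j → i = j) ∧
    (∀ i j, i < n → j < n → (G.Adj (f i) (f j) ↔ i + 1 = j ∨ j + 1 = i))

theorem HasPath.embedding {V : Type} {G : SimpleGraph V} {n t : ℕ} (h : HasPath G n)
    (ht : t ≤ n) : Nonempty (SimpleGraph.pathGraph t ↪g G) := by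
  obtain ⟨f, h1, h2⟩ := h
  refine ⟨⟨⟨fun i => f i.val, ?_⟩, ?_⟩⟩
  · intro i j hij
    exact Fin.ext (h1 i.val j.val (by omega) (by omega) hij)
  · intro i j
    rw [SimpleGraph.pathGraph_adj]
    exact h2 i.val j.val (by omega) (by omega)

theorem hasPath_of_embedding {V : Type} {G : SimpleGraph V} {t : ℕ} (ht : 1 ≤ t)
    (e : SimpleGraph.pathGraph t ↪g G) : HasPath G t := by
  refine ⟨fun i => if h : i < t then e ⟨i, h⟩ else e ⟨0, ht⟩, ?_, ?_⟩
  · intro i j hi hj hij
    simp only [hi, hj, dif_pos] at hij
    have := e.injective hij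
    exact congrArg Fin.val this
  · intro i j hi hj
    simp only [hi, hj, dif_pos]
    rw [e.map_adj_iff, SimpleGraph.pathGraph_adj]

theorem IP.hasPath {V : Type} {G : SimpleGraph V} {u w : V} {n : ℕ} {T : Finset V}
    (h : IP G u w n T) : ∃ f : ℕ → V, f 0 = u ∧ (∀ i < n, f i ∈ T) ∧
      (∀ i j, i < n → j < n → f i = f j → i = j) ∧
      (∀ i j, i < n → j < n → (G.Adj (f i) (f j) ↔ i + 1 = j ∨ j + 1 = i)) := by
  induction h with
  | single u =>
    refine ⟨fun _ => u, rfl, ?_, ?_, ?_⟩
    · intro i _
      exact Finset.mem_singleton_self u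
    · intro i j hi hj _
      omega
    · intro i j hi hj
      have h1 : ¬ G.Adj u u := G.loopless.irrefl u
      constructor
      · intro h
        exact absurd h h1
      · intro h
        omega
  | cons u v w n T hu hadj hnon _ ih =>
    obtain ⟨f, h0, h1, h2, h3⟩ := ih
    let g : ℕ → V := fun i => Nat.casesOn i u f
    have g0 : g 0 = u := rfl
    have gs : ∀ i, g (i + 1) = f i := fun _ => rfl
    have hadj0 : ∀ j, j < n → (G.Adj u (f j) ↔ j = 0) := by
      intro j hj
      constructor
      · intro h
        by_contra hj0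
        refine hnon (f j) (h1 j hj) ?_ h
        intro e
        exact hj0 (h2 j 0 hj (by omega) (by rw [e, h0]))
      · rintro rfl
        rw [h0]
        exact hadj
    refine ⟨g, g0, ?_, ?_, ?_⟩
    · intro i hi
      cases i with
      | zero => exact Finset.mem_insert_self _ _
      | succ i => exact Finset.mem_insert_of_mem (h1 i (by omega))
    · intro i j hi hj hij
      cases i with
      | zero =>
        cases j with
        | zero => rfl
        | succ j =>
          rw [g0, gs] at hij
          exact absurd (hij ▸ h1 j (by omega)) hu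
      | succ i =>
        cases j with
        | zero =>
          rw [g0, gs] at hij
          exact absurd (hij ▸ h1 i (by omega)) hu
        | succ j =>
          rw [gs, gs] at hij
          rw [h2 i j (by omega) (by omega) hij]
    · intro i j hi hj
      cases i with
      | zero =>
        cases j with
        | zero =>
          rw [g0]
          have h1 : ¬ G.Adj u u := G.loopless.irrefl u
          constructor
          · intro h
            exact absurd h h1
          · intro h
            omega
        | succ j =>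
          rw [g0, gs, hadj0 j (by omega)]
          omega
      | succ i =>
        cases j with
        | zero =>
          rw [g0, gs, G.adj_comm, hadj0 i (by omega)]
          omega
        | succ j =>
          rw [gs, gs, h3 i j (by omega) (by omega)]
          omega

theorem free_bound {V : Type} {G : SimpleGraph V} {t : ℕ}
    (h : IsEmpty (SimpleGraph.pathGraph t ↪g G)) {u w : V} {n : ℕ} {T : Finset V}
    (hp : IP G u w n T) : n ≤ t - 1 := by
  by_contra hn
  obtain ⟨f, -, -, h2, h3⟩ := hp.hasPath
  obtain ⟨e⟩ := HasPath.embedding (G := G) (n := n) (t := t) ⟨f, h2, h3⟩ (by omega)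
  exact h.false e

/-! ### Transfer along embeddings -/

theorem T2.map {V W : Type} {H : SimpleGraph V} {G : SimpleGraph W} (e : H ↪g G) {k : ℕ}
    {S : Finset V} (h : T2 H k S) : T2 G k (S.map e.toEmbedding) := by
  induction h with
  | empty k => exact T2.empty k
  | apex k S v hv _ ih =>
    refine T2.apex k _ (e v) (Finset.mem_map_of_mem _ hv) ?_
    rw [Finset.map_erase] at ih
    exact ih
  | sep k A B x hs _ _ ihA ihB =>
    rw [Finset.map_union]
    refine T2.sep k _ _ (e x) ⟨?_, ?_⟩ ihA ihB
    · intro y hy hy'
      rw [Finset.mem_map] at hy hy'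
      obtain ⟨a, ha, rfl⟩ := hy
      obtain ⟨b, hb, hab⟩ := hy'
      have := e.injective hab
      subst this
      rw [hs.inter b ha hb]
      rfl
    · intro y hy z hz h1 h2
      rw [Finset.mem_map] at hy hz
      obtain ⟨a, ha, rfl⟩ := hy
      obtain ⟨b, hb, rfl⟩ := hz
      have h3 : a ∉ B := fun h => h1 (Finset.mem_map_of_mem _ h)
      have h4 : b ∉ A := fun h => h2 (Finset.mem_map_of_mem _ h)
      have := hs.noadj a ha b hb h3 h4
      exact fun h => this (e.map_adj_iff.mp h)

theorem TDle.comap {V W : Type} [Fintype V] {H : SimpleGraph V} {G : SimpleGraph W} (e : H ↪g G)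
    {d : ℕ} {S : Finset W} (h : TDle G d S) :
    TDle H d (Finset.univ.filter (fun a => e a ∈ S)) := by
  induction h with
  | empty d => simpa using TDle.empty d
  | apex d S v hv _ ih =>
    by_cases hr : ∃ a, e a = v
    · obtain ⟨a, rfl⟩ := hr
      refine TDle.apex d _ a (by simpa using hv) ?_
      have e1 : (Finset.univ.filter (fun b => e b ∈ S)).erase a =
          Finset.univ.filter (fun b => e b ∈ S.erase (e a)) := by
        ext b
        simp only [Finset.mem_erase, Finset.mem_filter, Finset.mem_univ, true_and, ne_eq,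
          e.injective.eq_iff]
      rw [e1]
      exact ih
    · push Not at hr
      have e1 : Finset.univ.filter (fun b => e b ∈ S) =
          Finset.univ.filter (fun b => e b ∈ S.erase v) := by
        ext b
        simp only [Finset.mem_erase, Finset.mem_filter, Finset.mem_univ, true_and, ne_eq, hr b,
          not_false_eq_true]
      rw [e1]
      exact ih.mono (by omega)
  | union d A B hn _ _ ihA ihB =>
    have e1 : Finset.univ.filter (fun b => e b ∈ A ∪ B) =
        Finset.univ.filter (fun b => e b ∈ A) ∪ Finset.univ.filter (fun b => e b ∈ B) := by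
      ext b
      simp only [Finset.mem_union, Finset.mem_filter, Finset.mem_univ, true_and]
    rw [e1]
    refine TDle.union d _ _ ?_ ihA ihB
    intro a ha b hb
    rw [Finset.mem_filter] at ha hb
    obtain ⟨h1, h2⟩ := hn _ ha.2 _ hb.2
    exact ⟨fun h => h1 (by rw [h]), fun h => h2 (e.map_adj_iff.mpr h)⟩

/-! ### The construction -/

/-- vertices of the glued graph -/
inductive GV (β γ : Type) (M : ℕ) : Type
  | inl : β → GV β γ M
  | inr : β × Fin M × γ → GV β γ M

theorem GV.inl_injective {β γ : Type} {M : ℕ} :
    Function.Injective (GV.inl : β → GV β γ M) := by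
  intro a b h
  cases h
  rfl

noncomputable instance {β γ : Type} {M : ℕ} [Fintype β] [Fintype γ] : Fintype (GV β γ M) :=
  Fintype.ofInjective (fun x : GV β γ M =>
    (match x with
      | GV.inl a => Sum.inl a
      | GV.inr b => Sum.inr b : β ⊕ (β × Fin M × γ))) (by
    rintro (a | a) (b | b) h
    · exact congrArg _ (Sum.inl_injective h)
    · cases h
    · cases h
    · exact congrArg _ (Sum.inr_injective h))

/-- a wrapper -/
structure Wr (α : Type) : Type where
  val : α

noncomputable instance {α : Type} [Fintype α] : Fintype (Wr α) :=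
  Fintype.ofEquiv α ⟨fun a => ⟨a⟩, fun a => a.val, fun _ => rfl, fun _ => rfl⟩

instance : Subsingleton (Wr Unit) := ⟨fun a b => by cases a; cases b; rfl⟩

theorem Wr.card_eq {n : ℕ} : Fintype.card (Wr (Fin n)) = n := by
  rw [Fintype.card_congr (⟨fun a => a.val, fun a => ⟨a⟩, fun _ => rfl, fun _ => rfl⟩ :
    Wr (Fin n) ≃ Fin n), Fintype.card_fin]

/-- adjacency of the glued graph -/
def glueAdj {β γ : Type} (B : SimpleGraph β) (Q : SimpleGraph γ) (M : ℕ) :
    GV β γ M → GV β γ M → Prop
  | GV.inl a, GV.inl b => B.Adj a b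
  | GV.inl a, GV.inr b => a = b.1
  | GV.inr a, GV.inl b => a.1 = b
  | GV.inr a, GV.inr b => a.1 = b.1 ∧ a.2.1 = b.2.1 ∧ Q.Adj a.2.2 b.2.2

/-- every vertex `b` of `B` receives `M` copies of `Q`, all complete to `b` -/
def glue {β γ : Type} (B : SimpleGraph β) (Q : SimpleGraph γ) (M : ℕ) :
    SimpleGraph (GV β γ M) where
  Adj := glueAdj B Q M
  symm := by
    constructor
    rintro (a | a) (b | b) h
    · exact B.symm.symm _ _ h
    · exact Eq.symm h
    · exact Eq.symm h
    · exact ⟨h.1.symm, h.2.1.symm, h.2.2.symm⟩
  loopless := by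
    constructor
    rintro (a | a) h
    · exact B.loopless.irrefl _ h
    · exact Q.loopless.irrefl _ h.2.2

section
variable {β γ : Type} (B : SimpleGraph β) (Q : SimpleGraph γ) (M : ℕ)

/-- the base graph inside the glued graph -/
def baseEmb : B ↪g glue B Q M :=
  ⟨⟨GV.inl, GV.inl_injective⟩, Iff.rfl⟩

/-- a gadget inside the glued graph -/
def gadEmb (b : β) (i : Fin M) : Q ↪g glue B Q M :=
  ⟨⟨fun q => GV.inr (b, i, q), by
    intro q q' h
    simpa using h⟩, by
    intro q q'
    exact ⟨fun h => h.2.2, fun h => ⟨rfl, rfl, h⟩⟩⟩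

theorem glue_free (f : ℕ) (hB : ¬ HasPath B (2 * (f + 1) + 1))
    (hQ : ¬ HasPath Q (2 * (f + 2) + 1)) : ¬ HasPath (glue B Q M) (2 * (f + 2) + 1) := by
  rintro ⟨p, hinj, hadj⟩
  by_cases hint : ∀ j, 1 ≤ j → j ≤ 2 * f + 3 → ∃ b, p j = GV.inl b
  · apply hB
    have hch : ∀ j : ℕ, ∃ b : β, j < 2 * (f + 1) + 1 → p (j + 1) = GV.inl b := by
      intro j
      by_cases hj : j < 2 * (f + 1) + 1
      · obtain ⟨b, hb⟩ := hint (j + 1) (by omega) (by omega)
        exact ⟨b, fun _ => hb⟩
      · obtain ⟨b, _⟩ := hint 1 le_rfl (by omega)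
        exact ⟨b, fun h => absurd h hj⟩
    choose g hg using hch
    refine ⟨g, ?_, ?_⟩
    · intro i j hi hj hij
      have := hinj (i + 1) (j + 1) (by omega) (by omega) (by rw [hg i hi, hg j hj, hij])
      omega
    · intro i j hi hj
      have h1 := hadj (i + 1) (j + 1) (by omega) (by omega)
      rw [hg i hi, hg j hj] at h1
      have h2 : (glue B Q M).Adj (GV.inl (g i)) (GV.inl (g j)) ↔ B.Adj (g i) (g j) := Iff.rfl
      rw [← h2, h1]
      omega
  · push Not at hint
    obtain ⟨j, hj1, hj2, hj⟩ := hint
    obtain ⟨⟨b, i, q⟩, hbq⟩ : ∃ x, p j = GV.inr x := by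
      rcases hpj : p j with x | x
      · exact absurd hpj (hj x)
      · exact ⟨x, rfl⟩
    -- neighbours of gadget vertices
    have hnb : ∀ m m' q', p m = GV.inr (b, i, q') → (glue B Q M).Adj (p m) (p m') →
        p m' = GV.inl b ∨ ∃ q'', p m' = GV.inr (b, i, q'') := by
      intro m m' q' hm h
      rw [hm] at h
      rcases hpm : p m' with x | ⟨b', i', q''⟩
      · rw [hpm] at h
        left
        have h' : b = x := h
        rw [h']
      · rw [hpm] at h
        right
        have h' : b = b' ∧ i = i' ∧ Q.Adj q' q'' := h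
        exact ⟨q'', by rw [h'.1, h'.2.1]⟩
    have hstep : ∀ m, 1 ≤ m → m ≤ 2 * f + 3 → (∃ q', p m = GV.inr (b, i, q')) →
        (∃ q', p (m - 1) = GV.inr (b, i, q')) ∧ (∃ q', p (m + 1) = GV.inr (b, i, q')) := by
      rintro m hm1 hm2 ⟨q', hq'⟩
      have h1 : (glue B Q M).Adj (p m) (p (m - 1)) :=
        (hadj m (m - 1) (by omega) (by omega)).mpr (by omega)
      have h2 : (glue B Q M).Adj (p m) (p (m + 1)) :=
        (hadj m (m + 1) (by omega) (by omega)).mpr (by omega)
      have h3 : ¬ (glue B Q M).Adj (p (m - 1)) (p (m + 1)) := by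
        rw [hadj (m - 1) (m + 1) (by omega) (by omega)]
        omega
      rcases hnb m (m - 1) q' hq' h1 with h4 | ⟨q1, h4⟩
      · rcases hnb m (m + 1) q' hq' h2 with h5 | ⟨q2, h5⟩
        · have := hinj (m - 1) (m + 1) (by omega) (by omega) (by rw [h4, h5])
          omega
        · rw [h4, h5] at h3
          exact absurd (show (glue B Q M).Adj (GV.inl b) (GV.inr (b, i, q2)) from rfl) h3
      · rcases hnb m (m + 1) q' hq' h2 with h5 | ⟨q2, h5⟩
        · rw [h4, h5] at h3
          exact absurd (show (glue B Q M).Adj (GV.inr (b, i, q1)) (GV.inl b) from rfl) h3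
        · exact ⟨⟨q1, h4⟩, ⟨q2, h5⟩⟩
    have hup : ∀ r, j + r ≤ 2 * f + 4 → ∃ q', p (j + r) = GV.inr (b, i, q') := by
      intro r
      induction r with
      | zero => exact fun _ => ⟨q, hbq⟩
      | succ r ih =>
        intro hr
        exact (hstep (j + r) (by omega) (by omega) (ih (by omega))).2
    have hdown : ∀ r, r ≤ j → ∃ q', p (j - r) = GV.inr (b, i, q') := by
      intro r
      induction r with
      | zero => exact fun _ => ⟨q, hbq⟩
      | succ r ih =>
        intro hr
        have h1 := (hstep (j - r) (by omega) (by omega) (ih (by omega))).1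
        have e : j - r - 1 = j - (r + 1) := by omega
        rw [e] at h1
        exact h1
    have hall : ∀ m : ℕ, ∃ q' : γ, m < 2 * (f + 2) + 1 → p m = GV.inr (b, i, q') := by
      intro m
      by_cases hm : m < 2 * (f + 2) + 1
      · rcases le_total j m with h | h
        · obtain ⟨q', h1⟩ := hup (m - j) (by omega)
          have e : j + (m - j) = m := by omega
          rw [e] at h1
          exact ⟨q', fun _ => h1⟩
        · obtain ⟨q', h1⟩ := hdown (j - m) (by omega)
          have e : j - (j - m) = m := by omega
          rw [e] at h1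
          exact ⟨q', fun _ => h1⟩
      · exact ⟨q, fun h => absurd h hm⟩
    choose g hg using hall
    apply hQ
    refine ⟨g, ?_, ?_⟩
    · intro i' j' hi hj hij
      exact hinj i' j' hi hj (by rw [hg i' hi, hg j' hj, hij])
    · intro i' j' hi hj
      rw [← hadj i' j' hi hj, hg i' hi, hg j' hj]
      exact ⟨fun h => ⟨rfl, rfl, h⟩, fun h => h.2.2⟩

variable [Fintype β] [Fintype γ]

/-- the base and a set of gadgets -/
theorem glue_T2 (k : ℕ) (hB : T2 B (k + 1) Finset.univ) (hQ : T2 Q k Finset.univ) :
    T2 (glue B Q M) (k + 1) Finset.univ := by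
  let blk : β × Fin M → Finset (GV β γ M) := fun bi =>
    insert (GV.inl bi.1) (Finset.univ.map (gadEmb B Q M bi.1 bi.2).toEmbedding)
  have hmem : ∀ bi y, y ∈ blk bi ↔ y = GV.inl bi.1 ∨ ∃ q, y = GV.inr (bi.1, bi.2, q) := by
    intro bi y
    simp only [blk, Finset.mem_insert, Finset.mem_map, Finset.mem_univ, true_and]
    constructor
    · rintro (h | ⟨q, h⟩)
      · exact Or.inl h
      · exact Or.inr ⟨q, h.symm⟩
    · rintro (h | ⟨q, h⟩)
      · exact Or.inl h
      · exact Or.inr ⟨q, h.symm⟩
  have hblk : ∀ bi, T2 (glue B Q M) (k + 1) (blk bi) := by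
    intro bi
    refine T2.apex k _ (GV.inl bi.1) (Finset.mem_insert_self _ _) ?_
    have h1 := hQ.map (gadEmb B Q M bi.1 bi.2)
    refine h1.subset _ ?_
    intro y hy
    rw [Finset.mem_erase] at hy
    exact (Finset.mem_insert.mp hy.2).resolve_left hy.1
  have key : ∀ J : Finset (β × Fin M), T2 (glue B Q M) (k + 1)
      (Finset.univ.map (baseEmb B Q M).toEmbedding ∪ J.biUnion blk) := by
    intro J
    induction J using Finset.induction_on with
    | empty =>
      rw [Finset.biUnion_empty, Finset.union_empty]
      exact hB.map _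
    | insert bi J hbi ih =>
      have e : Finset.univ.map (baseEmb B Q M).toEmbedding ∪ (insert bi J).biUnion blk =
          (Finset.univ.map (baseEmb B Q M).toEmbedding ∪ J.biUnion blk) ∪ blk bi := by
        rw [Finset.biUnion_insert, Finset.union_comm (blk bi), Finset.union_assoc]
      rw [e]
      have hleft : ∀ y, y ∈ Finset.univ.map (baseEmb B Q M).toEmbedding ∪ J.biUnion blk ↔
          (∃ b, y = GV.inl b) ∨ ∃ bj ∈ J, ∃ q, y = GV.inr (bj.1, bj.2, q) := by
        intro y
        simp only [Finset.mem_union, Finset.mem_map, Finset.mem_univ, true_and,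
          Finset.mem_biUnion]
        constructor
        · rintro (⟨b, h⟩ | ⟨bj, h1, h2⟩)
          · exact Or.inl ⟨b, h.symm⟩
          · rcases (hmem bj y).mp h2 with h | ⟨q, h⟩
            · exact Or.inl ⟨_, h⟩
            · exact Or.inr ⟨bj, h1, q, h⟩
        · rintro (⟨b, h⟩ | ⟨bj, h1, q, h⟩)
          · exact Or.inl ⟨b, h.symm⟩
          · exact Or.inr ⟨bj, h1, (hmem bj y).mpr (Or.inr ⟨q, h⟩)⟩
      refine T2.sep (k + 1) _ _ (GV.inl bi.1) ⟨?_, ?_⟩ ih (hblk bi)
      · intro y hy hy'
        rcases (hmem bi y).mp hy' with h | ⟨q, h⟩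
        · exact h
        · exfalso
          rcases (hleft y).mp hy with ⟨b, h1⟩ | ⟨bj, h1, q', h2⟩
          · rw [h] at h1
            cases h1
          · rw [h] at h2
            have h3 : bi.1 = bj.1 ∧ bi.2 = bj.2 ∧ q = q' := by simpa using h2
            have : bi = bj := Prod.ext h3.1 h3.2.1
            exact hbi (this ▸ h1)
      · intro y hy z hz h1 h2 hadj
        rcases (hmem bi z).mp hz with h | ⟨q, h⟩
        · exact h2 ((hleft z).mpr (Or.inl ⟨_, h⟩))
        · subst h
          rcases y with y | ⟨b', i', q'⟩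
          · have h3 : y = bi.1 := hadj
            exact h1 ((hmem bi _).mpr (Or.inl (by rw [h3])))
          · have h3 : b' = bi.1 ∧ i' = bi.2 ∧ Q.Adj q' q := hadj
            exact h1 ((hmem bi _).mpr (Or.inr ⟨q', by rw [h3.1, h3.2.1]⟩))
  refine (key Finset.univ).subset _ ?_
  intro y _
  rcases y with y | ⟨b', i', q'⟩
  · exact Finset.mem_union_left _ (Finset.mem_map.mpr ⟨y, Finset.mem_univ _, rfl⟩)
  · refine Finset.mem_union_right _ (Finset.mem_biUnion.mpr ⟨(b', i'), Finset.mem_univ _, ?_⟩)
    exact (hmem _ _).mpr (Or.inr ⟨q', rfl⟩)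

omit [Fintype β] in
/-- treedepth of the glued graph -/
theorem glue_td_aux (DQ : ℕ) (hQ : ∀ d, TDle Q d Finset.univ → DQ ≤ d) {d : ℕ}
    {S : Finset (GV β γ M)} (h : TDle (glue B Q M) d S) :
    ∀ (X : Finset β), (∀ b ∈ X, GV.inl b ∈ S ∧ ∃ I : Finset (Fin M), d ≤ I.card ∧ 1 ≤ I.card ∧
      ∀ i ∈ I, ∀ q, GV.inr (b, i, q) ∈ S) → TDle B (d - DQ) X := by
  induction h with
  | empty d =>
    intro X hX
    have : X = ∅ := by
      rw [Finset.eq_empty_iff_forall_notMem]
      intro b hb
      have := (hX b hb).1
      simp at this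
    subst this
    exact TDle.empty _
  | apex d S v hv hS ih =>
    intro X hX
    rcases v with b0 | ⟨b0, i0, q0⟩
    · by_cases hb0 : b0 ∈ X
      · have hDQ : DQ ≤ d := by
          obtain ⟨-, I, -, hI1, hI⟩ := hX b0 hb0
          obtain ⟨i, hi⟩ := Finset.card_pos.mp hI1
          have h1 := hS.comap (gadEmb B Q M b0 i)
          refine hQ d ?_
          have e : (Finset.univ.filter (fun a => (gadEmb B Q M b0 i) a ∈
              S.erase (GV.inl b0))) = Finset.univ := by
            rw [Finset.filter_eq_self]
            intro q _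
            rw [Finset.mem_erase]
            refine ⟨?_, hI i hi q⟩
            intro h
            have : (GV.inr (b0, i, q) : GV β γ M) = GV.inl b0 := h
            cases this
          rw [e] at h1
          exact h1
        have e : d + 1 - DQ = (d - DQ) + 1 := by omega
        rw [e]
        refine TDle.apex _ X b0 hb0 (ih (X.erase b0) ?_)
        intro b hb
        rw [Finset.mem_erase] at hb
        obtain ⟨h1, I, h2, h3, h4⟩ := hX b hb.2
        refine ⟨Finset.mem_erase.mpr ⟨fun h => hb.1 (GV.inl_injective h), h1⟩, I, by omega, h3,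
          ?_⟩
        intro i hi q
        refine Finset.mem_erase.mpr ⟨?_, h4 i hi q⟩
        intro h
        cases h
      · refine (ih X ?_).mono (by omega)
        intro b hb
        obtain ⟨h1, I, h2, h3, h4⟩ := hX b hb
        refine ⟨Finset.mem_erase.mpr ⟨?_, h1⟩, I, by omega, h3, ?_⟩
        · intro h
          exact hb0 (GV.inl_injective h ▸ hb)
        · intro i hi q
          refine Finset.mem_erase.mpr ⟨?_, h4 i hi q⟩
          intro h
          cases h
    · by_cases hd : d = 0
      · -- nothing can remain
        subst hd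
        have hX' : X = ∅ := by
          rw [Finset.eq_empty_iff_forall_notMem]
          intro b hb
          obtain ⟨h1, -⟩ := hX b hb
          have h2 : (GV.inl b : GV β γ M) ∈ S.erase (GV.inr (b0, i0, q0)) := by
            refine Finset.mem_erase.mpr ⟨?_, h1⟩
            intro h
            cases h
          have hzero : ∀ (S' : Finset (GV β γ M)) (d' : ℕ), d' = 0 →
              TDle (glue B Q M) d' S' → S' = ∅ := by
            intro S' d' hd' h
            induction h with
            | empty => rfl
            | apex => omega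
            | union d A B _ _ _ ihA ihB => rw [ihA hd', ihB hd']; rfl
          rw [hzero _ 0 rfl hS] at h2
          simp at h2
        subst hX'
        exact TDle.empty _
      · refine (ih X ?_).mono (by omega)
        intro b hb
        obtain ⟨h1, I, h2, h3, h4⟩ := hX b hb
        refine ⟨Finset.mem_erase.mpr ⟨?_, h1⟩, I.erase i0, ?_, ?_, ?_⟩
        · intro h
          cases h
        · have := Finset.pred_card_le_card_erase (s := I) (a := i0)
          omega
        · have := Finset.pred_card_le_card_erase (s := I) (a := i0)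
          omega
        · intro i hi q
          rw [Finset.mem_erase] at hi
          refine Finset.mem_erase.mpr ⟨?_, h4 i hi.2 q⟩
          intro h
          have h5 : b = b0 ∧ i = i0 ∧ q = q0 := by simpa using h
          exact hi.1 h5.2.1
  | union d A A' hn _ _ ihA ihA' =>
    intro X hX
    have e : X = X.filter (fun b => GV.inl b ∈ A) ∪ X.filter (fun b => GV.inl b ∈ A') := by
      ext b
      simp only [Finset.mem_union, Finset.mem_filter]
      constructor
      · intro hb
        rcases Finset.mem_union.mp (hX b hb).1 with h | h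
        · exact Or.inl ⟨hb, h⟩
        · exact Or.inr ⟨hb, h⟩
      · rintro (h | h)
        · exact h.1
        · exact h.1
    rw [e]
    refine TDle.union _ _ _ ?_ (ihA _ ?_) (ihA' _ ?_)
    · intro a ha b hb
      rw [Finset.mem_filter] at ha hb
      obtain ⟨h1, h2⟩ := hn _ ha.2 _ hb.2
      exact ⟨fun h => h1 (by rw [h]), h2⟩
    · intro b hb
      rw [Finset.mem_filter] at hb
      obtain ⟨-, I, h2, h3, h4⟩ := hX b hb.1
      refine ⟨hb.2, I, h2, h3, ?_⟩
      intro i hi q
      rcases Finset.mem_union.mp (h4 i hi q) with h | h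
      · exact h
      · exact absurd (show (glue B Q M).Adj (GV.inl b) (GV.inr (b, i, q)) from rfl)
          (hn _ hb.2 _ h).2
    · intro b hb
      rw [Finset.mem_filter] at hb
      obtain ⟨-, I, h2, h3, h4⟩ := hX b hb.1
      refine ⟨hb.2, I, h2, h3, ?_⟩
      intro i hi q
      rcases Finset.mem_union.mp (h4 i hi q) with h | h
      · have h5 := (hn _ h _ hb.2).2
        exact absurd (show (glue B Q M).Adj (GV.inr (b, i, q)) (GV.inl b) from rfl) h5
      · exact h

theorem glue_td (DB DQ : ℕ) (hB : ∀ d, TDle B d Finset.univ → DB ≤ d)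
    (hQ : ∀ d, TDle Q d Finset.univ → DQ ≤ d) (hDB : 1 ≤ DB) (hM : DB + DQ ≤ M) (d : ℕ)
    (h : TDle (glue B Q M) d Finset.univ) : DB + DQ ≤ d := by
  by_contra hlt
  push Not at hlt
  have h1 := glue_td_aux B Q M DQ hQ h Finset.univ (by
    intro b _
    refine ⟨Finset.mem_univ _, Finset.univ, ?_, ?_, fun _ _ _ => Finset.mem_univ _⟩
    · rw [Finset.card_univ, Fintype.card_fin]
      omega
    · rw [Finset.card_univ, Fintype.card_fin]
      omega)
  have h2 := hB _ h1
  omega

end

theorem lower (k f : ℕ) : ∃ (V : Type) (_ : Fintype V) (G : SimpleGraph V),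
    T2 G (k + 1) Finset.univ ∧ ¬ HasPath G (2 * (f + 1) + 1) ∧
    ∀ d, TDle G d Finset.univ → DD (k + 1) (f + 1) ≤ d := by
  induction k generalizing f with
  | zero =>
    refine ⟨Wr Unit, inferInstance, ⊥, ?_, ?_, ?_⟩
    · refine T2.apex 0 _ ⟨()⟩ (Finset.mem_univ _) ?_
      have : (Finset.univ : Finset (Wr Unit)).erase ⟨()⟩ = ∅ := by
        ext x
        simp
      rw [this]
      exact T2.empty 0
    · rintro ⟨p, h1, -⟩
      have := h1 0 1 (by omega) (by omega) (Subsingleton.elim _ _)
      omega
    · intro d h
      rw [DD_choose]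
      simp only [add_zero, Nat.choose_self]
      rcases h.inv ⟨⟨()⟩, Finset.mem_univ _⟩ with ⟨d', v, rfl, -, -⟩ | ⟨A, B, -, hA, hB, hn, -, -⟩
      · omega
      · obtain ⟨a, ha⟩ := hA
        obtain ⟨b, hb⟩ := hB
        exact absurd (Subsingleton.elim a b) (hn a ha b hb).1
  | succ k ihk =>
    induction f with
    | zero =>
      refine ⟨Wr (Fin (k + 2)), inferInstance, ⊤, ?_, ?_, ?_⟩
      · have key : ∀ (n : ℕ) (S : Finset (Wr (Fin (k + 2)))), S.card = n →
            T2 (⊤ : SimpleGraph (Wr (Fin (k + 2)))) n S := by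
          intro n
          induction n with
          | zero =>
            intro S hS
            rw [Finset.card_eq_zero] at hS
            subst hS
            exact T2.empty 0
          | succ n ih =>
            intro S hS
            obtain ⟨v, hv⟩ := Finset.card_pos.mp (show 0 < S.card by omega)
            exact T2.apex n S v hv (ih _ (by rw [Finset.card_erase_of_mem hv, hS]; rfl))
        exact key _ _ (by rw [Finset.card_univ, Wr.card_eq])
      · rintro ⟨p, h1, h2⟩
        have h3 := (h2 0 2 (by omega) (by omega)).mp (by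
          rw [SimpleGraph.top_adj]
          intro h
          have := h1 0 2 (by omega) (by omega) h
          omega)
        omega
      · intro d h
        have key : ∀ (S : Finset (Wr (Fin (k + 2)))), TDle (⊤ : SimpleGraph (Wr (Fin (k + 2)))) d S →
            S.card ≤ d := by
          clear h ihk
          intro S h
          induction h with
          | empty d => simp
          | apex d S v hv _ ih =>
            rw [Finset.card_erase_of_mem hv] at ih
            omega
          | union d A B hn _ _ ihA ihB =>
            by_cases hA : A.Nonempty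
            · by_cases hB : B.Nonempty
              · obtain ⟨a, ha⟩ := hA
                obtain ⟨b, hb⟩ := hB
                obtain ⟨h1, h2⟩ := hn a ha b hb
                exact absurd ((SimpleGraph.top_adj a b).mpr h1) h2
              · rw [Finset.not_nonempty_iff_eq_empty] at hB
                subst hB
                rw [Finset.union_empty]
                exact ihA
            · rw [Finset.not_nonempty_iff_eq_empty] at hA
              subst hA
              rw [Finset.empty_union]
              exact ihB
        have := key _ h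
        rw [Finset.card_univ, Wr.card_eq] at this
        rw [DD_choose]
        have e : Nat.choose (0 + 1 + (k + 1)) (0 + 1) = k + 2 := by
          rw [Nat.choose_one_right]
          omega
        rw [e]
        exact this
    | succ f ihf =>
      obtain ⟨β, iβ, B, hB1, hB2, hB3⟩ := ihf
      obtain ⟨γ, iγ, Q, hQ1, hQ2, hQ3⟩ := ihk (f + 1)
      refine ⟨_, inferInstance,
        glue B Q (DD (k + 1 + 1) (f + 1) + DD (k + 1) (f + 1 + 1)), ?_, ?_, ?_⟩
      · exact glue_T2 B Q _ (k + 1) hB1 hQ1
      · exact glue_free B Q _ f hB2 hQ2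
      · intro d h
        have h1 := glue_td B Q _ _ _ hB3 hQ3 (DD_pos _ _) le_rfl d h
        rw [DD_succ (k + 1) (f + 1)]
        omega

end Q109.TD2
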