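import Pool.Agent.Q109.TD2.IP

/-!
# The universal elimination
-/

namespace Q109.TD2

open Classical

/-- the numbers `DD (k+1) f = choose (f + k) f` -/
def DD : ℕ → ℕ → ℕ
  | 0, _ => 0
  | _ + 1, 0 => 1
  | k + 1, f + 1 => DD k (f + 1) + DD (k + 1) f

theorem DD_zero (f : ℕ) : DD 0 f = 0 := by
  cases f <;> rw [DD]

theorem DD_succ_zero (k : ℕ) : DD (k + 1) 0 = 1 := by
  rw [DD]

theorem DD_succ (k f : ℕ) : DD (k + 1) (f + 1) = DD k (f + 1) + DD (k + 1) f := by
  rw [DD]

theorem DD_choose (k f : ℕ) : DD (k + 1) f = Nat.choose (f + k) f := by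
  induction k generalizing f with
  | zero =>
    induction f with
    | zero => rw [DD_succ_zero]; rfl
    | succ f ih => rw [DD_succ, DD_zero, ih]; simp
  | succ k ihk =>
    induction f with
    | zero => simp [DD_succ_zero]
    | succ f ih =>
      rw [DD_succ, ih, ihk (f + 1)]
      have : f + 1 + (k + 1) = (f + (k + 1)) + 1 := by ring
      rw [this, Nat.choose_succ_succ, Nat.add_comm]
      congr 2
      ring

theorem DD_pos (k f : ℕ) : 1 ≤ DD (k + 1) f := by
  rw [DD_choose]
  exact Nat.choose_pos (by omega)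

theorem DD_mono1 (k f : ℕ) : DD k f ≤ DD k (f + 1) := by
  cases k with
  | zero => rw [DD_zero, DD_zero]
  | succ k => rw [DD_succ]; omega

theorem DD_mono (k : ℕ) {f g : ℕ} (h : f ≤ g) : DD k f ≤ DD k g := by
  induction g, h using Nat.le_induction with
  | base => exact le_refl _
  | succ g _ ih => exact ih.trans (DD_mono1 k g)

theorem DD_strict {k : ℕ} (hk : 1 ≤ k) {f g : ℕ} (h : f < g) : DD (k + 1) f + 1 ≤ DD (k + 1) g := by
  obtain ⟨k, rfl⟩ : ∃ j, k = j + 1 := ⟨k - 1, by omega⟩
  obtain ⟨g, rfl⟩ : ∃ j, g = j + 1 := ⟨g - 1, by omega⟩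
  rw [DD_succ]
  have h1 := DD_pos k (g + 1)
  have h2 := DD_mono (k + 1 + 1) (show f ≤ g by omega)
  omega

theorem L1 (k : ℕ) {x y : ℕ} (h : y + 1 ≤ x) : DD k x + DD (k + 1) y ≤ DD (k + 1) x := by
  obtain ⟨x, rfl⟩ : ∃ j, x = j + 1 := ⟨x - 1, by omega⟩
  rw [DD_succ]
  have := DD_mono (k + 1) (show y ≤ x by omega)
  omega

theorem L2 {k : ℕ} (hk : 1 ≤ k) {x y : ℕ} (h : y + 1 ≤ x) :
    1 + DD (k + 1) y ≤ DD (k + 1) x := by
  have := DD_strict hk (show y < x by omega)
  omega

theorem L3 {k : ℕ} (hk : 1 ≤ k) {x y : ℕ} (h : y + 1 ≤ x) :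
    1 + DD k x + DD (k + 1) y ≤ DD (k + 1) x + DD k y := by
  obtain ⟨x, rfl⟩ : ∃ j, x = j + 1 := ⟨x - 1, by omega⟩
  rw [DD_succ k x]
  cases y with
  | zero =>
    obtain ⟨k, rfl⟩ : ∃ j, k = j + 1 := ⟨k - 1, by omega⟩
    rw [DD_succ_zero, DD_succ_zero]
    have := DD_pos (k + 1) x
    omega
  | succ y =>
    rw [DD_succ k y]
    have := DD_strict hk (show y < x by omega)
    omega

theorem L4 {k : ℕ} (hk : 1 ≤ k) {x y : ℕ} (h : y + 2 ≤ x) :
    1 + DD k x + DD (k + 1) y ≤ DD (k + 1) x := by
  obtain ⟨x, rfl⟩ : ∃ j, x = j + 1 := ⟨x - 1, by omega⟩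
  rw [DD_succ k x]
  have := DD_strict hk (show y < x by omega)
  omega

theorem exists_max (P : ℕ → Prop) (N : ℕ) (hne : ∃ n, P n) (hb : ∀ n, P n → n ≤ N) :
    ∃ m, P m ∧ ∀ n, P n → n ≤ m := by
  obtain ⟨n, hn⟩ := hne
  refine ⟨Nat.findGreatest P N, Nat.findGreatest_spec (hb n hn) hn, ?_⟩
  intro m hm
  exact Nat.le_findGreatest (hb m hm) hm

variable {V : Type} {G : SimpleGraph V}

theorem T2.pos {k : ℕ} {S : Finset V} (h : T2 G k S) (hne : S.Nonempty) : 1 ≤ k := by
  by_contra hk
  have : k = 0 := by omega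
  subst this
  rw [h.zero] at hne
  simp at hne

/-- pair condition -/
def Pair (G : SimpleGraph V) (s : ℕ) (R : V → Prop) (α : V → ℕ) (S : Finset V) : Prop :=
  (∀ b ∈ S, R b → 2 * α b + 1 ≤ s) ∧
  ∀ b ∈ S, ∀ b' ∈ S, R b → R b' → b ≠ b' → ∀ n T, IP G b b' n T → T ⊆ S → n + α b + α b' ≤ s

/-- root condition -/
def Root (G : SimpleGraph V) (R : V → Prop) (α : V → ℕ) (S : Finset V) (c : V) (a : ℕ) : Prop :=
  ∀ b ∈ S, R b → b ≠ c → Conn G S b c ∧ ∀ n T, IP G b c n T → T ⊆ S → n + α b ≤ a + 1

theorem Pair.subset {s : ℕ} {R : V → Prop} {α : V → ℕ} {S S' : Finset V} (h : Pair G s R α S)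
    (hs : S' ⊆ S) : Pair G s R α S' :=
  ⟨fun b hb => h.1 b (hs hb), fun b hb b' hb' h1 h2 h3 n T h4 h5 =>
    h.2 b (hs hb) b' (hs hb') h1 h2 h3 n T h4 (h5.trans hs)⟩

/-- the component of `c` in `S` -/
noncomputable def comp (G : SimpleGraph V) (S : Finset V) (c : V) : Finset V :=
  S.filter (fun z => Conn G S z c)

theorem comp_subset (S : Finset V) (c : V) : comp G S c ⊆ S := Finset.filter_subset _ _

theorem mem_comp {S : Finset V} {c z : V} : z ∈ comp G S c ↔ z ∈ S ∧ Conn G S z c :=
  Finset.mem_filter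

theorem self_mem_comp {S : Finset V} {c : V} (hc : c ∈ S) : c ∈ comp G S c :=
  mem_comp.mpr ⟨hc, Conn.refl hc⟩

theorem comp_conn {S : Finset V} {c z : V} (h : Conn G S z c) : Conn G (comp G S c) z c := by
  obtain ⟨n, T, h1, h2⟩ := h
  refine ⟨n, T, h1, ?_⟩
  intro y hy
  obtain ⟨n', T', h3, h4⟩ := h1.suffix y hy
  exact mem_comp.mpr ⟨h2 hy, n', T', h3, h4.trans h2⟩

theorem comp_rest {S : Finset V} {c : V} :
    ∀ a ∈ comp G S c, ∀ b ∈ S \ comp G S c, a ≠ b ∧ ¬ G.Adj a b := by
  intro a ha b hb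
  rw [Finset.mem_sdiff] at hb
  refine ⟨fun e => hb.2 (e ▸ ha), fun hadj => hb.2 ?_⟩
  exact mem_comp.mpr ⟨hb.1, (mem_comp.mp ha).2.step hb.1 hadj.symm⟩

/-- star claim -/
def StarC (G : SimpleGraph V) (s : ℕ) (S : Finset V) : Prop :=
  ∀ (k : ℕ) (R : V → Prop) (α β : V → ℕ) (d : ℕ), T2 G k S → Pair G s R α S →
    (∀ b ∈ S, R b → d + DD k (s / 2 - α b) ≤ β b) → El G R β d S

/-- rooted claim -/
def RootC (G : SimpleGraph V) (s : ℕ) (S : Finset V) : Prop :=
  ∀ (k : ℕ) (R : V → Prop) (α β : V → ℕ) (d : ℕ) (c : V) (a : ℕ), T2 G k S → c ∈ S →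
    2 * a + 1 ≤ s → Pair G s R α (S.erase c) → Root G R α S c a →
    (∀ b ∈ S, R b → b ≠ c → d + DD k (s / 2 - α b) ≤ β b + DD k (s / 2 - a)) →
    El G R β d (S.erase c)

/-- rooted claim at an apex step -/
theorem root_apex {s : ℕ} {S : Finset V}
    (ih : ∀ S' : Finset V, S'.card < S.card → StarC G s S' ∧ RootC G s S')
    (k : ℕ) (R : V → Prop) (α β : V → ℕ) (d : ℕ) (c : V) (a : ℕ) (v : V) (hv : v ∈ S)
    (hT : T2 G k (S.erase v)) (hc : c ∈ S) (ha : 2 * a + 1 ≤ s)
    (hP : Pair G s R α (S.erase c)) (hR : Root G R α S c a)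
    (hβ : ∀ b ∈ S, R b → b ≠ c →
      d + DD (k + 1) (s / 2 - α b) ≤ β b + DD (k + 1) (s / 2 - a)) :
    El G R β d (S.erase c) := by
  have hgap : ∀ b ∈ S, R b → b ≠ c → (s / 2 - a) + 1 ≤ s / 2 - α b := by
    intro b hb hRb hbc
    obtain ⟨⟨n, T, h1, h2⟩, h3⟩ := hR b hb hRb hbc
    have h4 := h3 n T h1 h2
    have h5 := h1.two hbc
    omega
  by_cases hvc : v = c
  · subst hvc
    have hcard : (S.erase v).card < S.card := Finset.card_erase_lt_of_mem hv
    refine (ih _ hcard).1 k R α β d hT hP ?_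
    intro b hb hRb
    rw [Finset.mem_erase] at hb
    have h1 := hβ b hb.2 hRb hb.1
    have h2 := L1 k (hgap b hb.2 hRb hb.1)
    omega
  · have hcv : c ∈ S.erase v := Finset.mem_erase.mpr ⟨fun h => hvc h.symm, hc⟩
    have hk : 1 ≤ k := hT.pos ⟨c, hcv⟩
    have hcard : (S.erase v).card < S.card := Finset.card_erase_lt_of_mem hv
    refine El.step d _ v (Finset.mem_erase.mpr ⟨hvc, hv⟩) ?_ ?_
    · intro hRv
      have h1 := hβ v hv hRv hvc
      have h2 := L2 hk (hgap v hv hRv hvc)
      omega
    · have e : (S.erase c).erase v =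
          (comp G (S.erase v) c).erase c ∪ (S.erase v \ comp G (S.erase v) c) := by
        ext y
        simp only [Finset.mem_erase, Finset.mem_union, Finset.mem_sdiff]
        constructor
        · rintro ⟨h1, h2, h3⟩
          by_cases hy : y ∈ comp G (S.erase v) c
          · exact Or.inl ⟨h2, hy⟩
          · exact Or.inr ⟨⟨h1, h3⟩, hy⟩
        · rintro (⟨h1, h2⟩ | ⟨⟨h1, h2⟩, h3⟩)
          · have := comp_subset _ _ h2
            rw [Finset.mem_erase] at this
            exact ⟨this.1, h1, this.2⟩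
          · refine ⟨h1, ?_, h2⟩
            rintro rfl
            exact h3 (self_mem_comp hcv)
      rw [e]
      refine El.union (d + 1) _ _ ?_ ?_ ?_
      · intro x hx y hy
        exact comp_rest x (Finset.mem_of_mem_erase hx) y hy
      · have hsub : comp G (S.erase v) c ⊆ S := (comp_subset _ _).trans (Finset.erase_subset _ _)
        have hcard' : (comp G (S.erase v) c).card < S.card :=
          lt_of_le_of_lt (Finset.card_le_card (comp_subset _ _)) hcard
        refine (ih _ hcard').2 k R α β (d + 1) c a (hT.subset _ (comp_subset _ _))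
          (self_mem_comp hcv) ha (hP.subset (Finset.erase_subset_erase _ hsub)) ?_ ?_
        · intro b hb hRb hbc
          refine ⟨comp_conn (mem_comp.mp hb).2, ?_⟩
          intro n T h1 h2
          exact (hR b (hsub hb) hRb hbc).2 n T h1 (h2.trans hsub)
        · intro b hb hRb hbc
          have h1 := hβ b (hsub hb) hRb hbc
          have h2 := L3 hk (hgap b (hsub hb) hRb hbc)
          omega
      · have hsub : (S.erase v \ comp G (S.erase v) c) ⊆ S.erase v := Finset.sdiff_subset
        have hsub2 : (S.erase v \ comp G (S.erase v) c) ⊆ S.erase c := by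
          intro y hy
          rw [Finset.mem_sdiff] at hy
          refine Finset.mem_erase.mpr ⟨?_, Finset.mem_of_mem_erase hy.1⟩
          rintro rfl
          exact hy.2 (self_mem_comp hcv)
        have hcard' : (S.erase v \ comp G (S.erase v) c).card < S.card :=
          lt_of_le_of_lt (Finset.card_le_card hsub) hcard
        refine (ih _ hcard').1 k R α β (d + 1) (hT.subset _ hsub) (hP.subset hsub2) ?_
        intro b hb hRb
        have hbS : b ∈ S := Finset.mem_of_mem_erase (hsub hb)
        have hbc : b ≠ c := (Finset.mem_erase.mp (hsub2 hb)).1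
        have hbv : b ≠ v := (Finset.mem_erase.mp (hsub hb)).1
        have h1 := hβ b hbS hRb hbc
        obtain ⟨⟨n, T, h3, h4⟩, h5⟩ := hR b hbS hRb hbc
        have hvT : v ∈ T := by
          by_contra hvT
          have : T ⊆ S.erase v := by
            intro y hy
            refine Finset.mem_erase.mpr ⟨?_, h4 hy⟩
            rintro rfl
            exact hvT hy
          exact (Finset.mem_sdiff.mp hb).2 (mem_comp.mpr ⟨hsub hb, n, T, h3, this⟩)
        have h6 := h3.three hbc hvT (fun h => hbv h.symm) hvc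
        have h7 := h5 n T h3 h4
        have h2 := L4 hk (show (s / 2 - a) + 2 ≤ s / 2 - α b by omega)
        omega

/-- rooted claim at a separation, `c` in `A` but not in `B` -/
theorem root_sep {s : ℕ} {A B : Finset V} {x : V} (hsep : Sep G A B x)
    (ihA : RootC G s A) (ihB : RootC G s B)
    (k : ℕ) (R : V → Prop) (α β : V → ℕ) (d : ℕ) (c : V) (a : ℕ)
    (hTA : T2 G k A) (hTB : T2 G k B) (hcA : c ∈ A) (hcB : c ∉ B) (hxA : x ∈ A) (hxB : x ∈ B)
    (ha : 2 * a + 1 ≤ s)
    (hP : Pair G s R α ((A ∪ B).erase c)) (hR : Root G R α (A ∪ B) c a)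
    (hβ : ∀ b ∈ A ∪ B, R b → b ≠ c →
      d + DD k (s / 2 - α b) ≤ β b + DD k (s / 2 - a))
    (hconn : ∀ z ∈ A ∪ B, Conn G (A ∪ B) z c) :
    El G R β d ((A ∪ B).erase c) := by
  have hxc : x ≠ c := fun e => hcB (e ▸ hxB)
  have hAS : A ⊆ A ∪ B := Finset.subset_union_left
  have hBS : B ⊆ A ∪ B := Finset.subset_union_right
  have hAc : A.erase c ⊆ (A ∪ B).erase c := Finset.erase_subset_erase _ hAS
  have hBc : B ⊆ (A ∪ B).erase c := by
    intro y hy
    refine Finset.mem_erase.mpr ⟨?_, hBS hy⟩
    rintro rfl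
    exact hcB hy
  have hBnA : ∀ y ∈ B, y ≠ x → y ∉ A := fun y hy hyx hyA => hyx (hsep.inter y hyA hy)
  have hconnA : ∀ z ∈ A, Conn G A z c := by
    intro z hz
    obtain ⟨n, T, h1, h2⟩ := hconn z (hAS hz)
    exact ⟨n, T, h1, hsep.stay h1 h2 hz hcA⟩
  have hconnB : ∀ z ∈ B, z ≠ x → Conn G B z x := by
    intro z hz hzx
    obtain ⟨n, T, h1, h2⟩ := hconn z (hBS hz)
    obtain ⟨-, -, -, n', T', h3, -, h5⟩ := hsep.cross h1 h2 (hBnA z hz hzx) hcA
    exact ⟨n', T', h3, h5⟩
  -- concatenation
  have hcat : ∀ b ∈ B, b ≠ x → ∀ n T, IP G b x n T → T ⊆ B → ∀ w m T', IP G x w m T' → T' ⊆ A →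
      IP G b w (n + m - 1) (T ∪ T') := by
    intro b hb hbx n T h1 h2 w m T' h3 h4
    refine h1.concat h3 ?_ ?_
    · intro y hy hy'
      exact hsep.inter y (h4 hy') (h2 hy)
    · intro y hy z hz hyx hzx hadj
      refine hsep.noadj z (h4 hz) y (h2 hy) ?_ ?_ hadj.symm
      · exact fun h => hzx (hsep.inter z (h4 hz) h)
      · exact fun h => hyx (hsep.inter y h (h2 hy))
  have hfin : (A ∪ B).erase c = A.erase c ∪ B.erase x := by
    ext y
    simp only [Finset.mem_erase, Finset.mem_union]
    constructor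
    · rintro ⟨h1, h2 | h2⟩
      · exact Or.inl ⟨h1, h2⟩
      · by_cases hyx : y = x
        · subst hyx
          exact Or.inl ⟨h1, hxA⟩
        · exact Or.inr ⟨hyx, h2⟩
    · rintro (⟨h1, h2⟩ | ⟨h1, h2⟩)
      · exact ⟨h1, Or.inl h2⟩
      · refine ⟨?_, Or.inr h2⟩
        rintro rfl
        exact hcB h2
  have hno : ∀ y ∈ A.erase c, y ≠ x → ∀ z ∈ B.erase x, y ≠ z ∧ ¬ G.Adj y z := by
    intro y hy hyx z hz
    rw [Finset.mem_erase] at hy hz
    have hyB : y ∉ B := fun h => hyx (hsep.inter y hy.2 h)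
    have hzA : z ∉ A := hBnA z hz.2 hz.1
    exact ⟨fun e => hyB (e ▸ hz.2), hsep.noadj y hy.2 z hz.2 hyB hzA⟩
  have hxAc : x ∈ A.erase c := Finset.mem_erase.mpr ⟨hxc, hxA⟩
  rw [hfin]
  by_cases hRB : ∃ b ∈ B, b ≠ x ∧ R b
  · -- there are required vertices on the far side
    obtain ⟨nx, Tx, hx1, hx2⟩ := hconnA x hxA
    have hbound : ∀ b ∈ B, b ≠ x → R b → ∀ n T, IP G b x n T → T ⊆ B →
        ∀ m T', IP G x c m T' → T' ⊆ A → n + α b + m ≤ a + 2 := by
      intro b hb hbx hRb n T h1 h2 m T' h3 h4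
      have h5 := hcat b hb hbx n T h1 h2 c m T' h3 h4
      have hbc : b ≠ c := fun e => hcB (e ▸ hb)
      have h6 := (hR b (hBS hb) hRb hbc).2 _ _ h5
        (Finset.union_subset (h2.trans hBS) (h4.trans hAS))
      have h7 := h1.two hbx
      omega
    obtain ⟨aB, ⟨b0, n0, T0, hb0, hb0x, hRb0, hIP0, hT0, haB⟩, hmax⟩ := exists_max
      (fun m => ∃ b n T, b ∈ B ∧ b ≠ x ∧ R b ∧ IP G b x n T ∧ T ⊆ B ∧ m + 1 = n + α b) a
      (by
        obtain ⟨b, hb, hbx, hRb⟩ := hRB
        obtain ⟨n, T, h1, h2⟩ := hconnB b hb hbx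
        have := h1.two hbx
        exact ⟨n + α b - 1, b, n, T, hb, hbx, hRb, h1, h2, by omega⟩)
      (by
        rintro m ⟨b, n, T, hb, hbx, hRb, h1, h2, h3⟩
        have h4 := hbound b hb hbx hRb n T h1 h2 nx Tx hx1 hx2
        have h5 := hx1.two hxc
        omega)
    -- new data
    let ax : ℕ := if R x then α x else 0
    let R' : V → Prop := fun v => R v ∨ v = x
    let α' : V → ℕ := fun v => if v = x then max ax aB else α v
    let β' : V → ℕ := fun v => if v = x then d + DD k (s / 2 - max ax aB) - DD k (s / 2 - a)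
      else β v
    have hα'x : α' x = max ax aB := if_pos rfl
    have hβ'x : β' x = d + DD k (s / 2 - max ax aB) - DD k (s / 2 - a) := if_pos rfl
    have hα' : ∀ v, v ≠ x → α' v = α v := fun v hv => if_neg hv
    have hβ' : ∀ v, v ≠ x → β' v = β v := fun v hv => if_neg hv
    have haxR : R x → ax = α x := fun h => if_pos h
    have haxN : ¬ R x → ax = 0 := fun h => if_neg h
    have hcase : α' x = aB ∨ (R x ∧ α' x = α x) := by
      rw [hα'x]
      by_cases hRx : R x
      · rcases le_total ax aB with h | h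
        · exact Or.inl (max_eq_right h)
        · exact Or.inr ⟨hRx, by rw [max_eq_left h, haxR hRx]⟩
      · left
        rw [haxN hRx]
        simp
    have hα'a : α' x + nx ≤ a + 1 := by
      rcases hcase with h | ⟨h1, h2⟩
      · rw [h]
        have := hbound b0 hb0 hb0x hRb0 n0 T0 hIP0 hT0 nx Tx hx1 hx2
        omega
      · rw [h2]
        have := (hR x (hAS hxA) h1 hxc).2 nx Tx hx1 (hx2.trans hAS)
        omega
    have hnx := hx1.two hxc
    have hDle : DD k (s / 2 - a) ≤ DD k (s / 2 - max ax aB) := by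
      rw [hα'x] at hα'a
      exact DD_mono k (by omega)
    have hElA : El G R' β' d (A.erase c) := by
      refine ihA k R' α' β' d c a hTA hcA ha ⟨?_, ?_⟩ ?_ ?_
      · intro b hb hRb
        by_cases hbx : b = x
        · subst hbx
          omega
        · rw [hα' b hbx]
          exact hP.1 b (hAc hb) (hRb.resolve_right hbx)
      · -- pairs
        have key : ∀ b ∈ A.erase c, R' b → b ≠ x → ∀ n T, IP G b x n T → T ⊆ A.erase c →
            n + α' b + α' x ≤ s := by
          intro b hb hRb hbx n T h1 h2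
          rw [hα' b hbx]
          have hRb' := hRb.resolve_right hbx
          rcases hcase with h | ⟨h3, h4⟩
          · rw [h]
            have h5 := hcat b0 hb0 hb0x n0 T0 hIP0 hT0 b n T h1.symm
              (h2.trans (Finset.erase_subset _ _))
            have hne : b0 ≠ b := by
              rintro rfl
              exact hBnA b0 hb0 hb0x (Finset.mem_of_mem_erase hb)
            have h6 := hP.2 b0 (hBc hb0) b (hAc hb) hRb0 hRb' hne _ _ h5
              (Finset.union_subset (hT0.trans hBc) (h2.trans hAc))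
            omega
          · rw [h4]
            exact hP.2 b (hAc hb) x (hAc hxAc) hRb' h3 hbx n T h1 (h2.trans hAc)
        intro b hb b' hb' hRb hRb' hne n T h1 h2
        by_cases hbx : b = x
        · subst hbx
          have := key b' hb' hRb' (fun h => hne h.symm) n T h1.symm h2
          omega
        · by_cases hbx' : b' = x
          · subst hbx'
            exact key b hb hRb hbx n T h1 h2
          · rw [hα' b hbx, hα' b' hbx']
            exact hP.2 b (hAc hb) b' (hAc hb') (hRb.resolve_right hbx)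
              (hRb'.resolve_right hbx') hne n T h1 (h2.trans hAc)
      · intro b hb hRb hbc
        refine ⟨hconnA b hb, ?_⟩
        intro n T h1 h2
        by_cases hbx : b = x
        · subst hbx
          rcases hcase with h | ⟨h3, h4⟩
          · rw [h]
            have := hbound b0 hb0 hb0x hRb0 n0 T0 hIP0 hT0 n T h1 h2
            omega
          · rw [h4]
            exact (hR b (hAS hb) h3 hbc).2 n T h1 (h2.trans hAS)
        · rw [hα' b hbx]
          exact (hR b (hAS hb) (hRb.resolve_right hbx) hbc).2 n T h1 (h2.trans hAS)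
      · intro b hb hRb hbc
        by_cases hbx : b = x
        · subst hbx
          rw [hα'x, hβ'x]
          omega
        · rw [hα' b hbx, hβ' b hbx]
          exact hβ b (hAS hb) (hRb.resolve_right hbx) hbc
    have hElB : El G R β (β' x) (B.erase x) := by
      refine ihB k R α β (β' x) x aB hTB hxB ?_ ?_ ?_ ?_
      · have : aB ≤ a := by
          have := hbound b0 hb0 hb0x hRb0 n0 T0 hIP0 hT0 nx Tx hx1 hx2
          omega
        omega
      · exact hP.subset ((Finset.erase_subset _ _).trans hBc)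
      · intro b hb hRb hbx
        refine ⟨hconnB b hb hbx, ?_⟩
        intro n T h1 h2
        have h3 := h1.two hbx
        have := hmax (n + α b - 1) ⟨b, n, T, hb, hbx, hRb, h1, h2, by omega⟩
        omega
      · intro b hb hRb hbx
        have hbc : b ≠ c := fun e => hcB (e ▸ hb)
        have h1 := hβ b (hBS hb) hRb hbc
        have h2 : DD k (s / 2 - max ax aB) ≤ DD k (s / 2 - aB) :=
          DD_mono k (by have := le_max_right ax aB; omega)
        rw [hβ'x]
        omega
    refine (El.graft (R' := R') (β' := β') hno (Finset.notMem_erase _ _) ?_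
      (Or.inl ⟨Or.inr rfl, hElB⟩) hElA subset_rfl).1 hxAc
    intro v hv hRv
    refine ⟨Or.inl hRv, ?_⟩
    by_cases hvx : v = x
    · subst hvx
      rw [hβ'x]
      have h1 := hβ v (hAS hxA) hRv hxc
      have h2 : DD k (s / 2 - max ax aB) ≤ DD k (s / 2 - α v) := by
        apply DD_mono k
        have := le_max_left ax aB
        rw [haxR hRv] at this ⊢
        omega
      omega
    · rw [hβ' v hvx]
  · push Not at hRB
    have hElA : El G R β d (A.erase c) := by
      refine ihA k R α β d c a hTA hcA ha (hP.subset hAc) ?_ ?_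
      · intro b hb hRb hbc
        refine ⟨hconnA b hb, ?_⟩
        intro n T h1 h2
        exact (hR b (hAS hb) hRb hbc).2 n T h1 (h2.trans hAS)
      · intro b hb hRb hbc
        exact hβ b (hAS hb) hRb hbc
    refine (El.graft (R' := R) (β' := β) hno (Finset.notMem_erase _ _) ?_
      (Or.inr ?_) hElA subset_rfl).1 hxAc
    · intro v hv hRv
      exact ⟨hRv, le_refl _⟩
    · intro b hb
      rw [Finset.mem_erase] at hb
      exact hRB b hb.2 hb.1

/-- rooted claim, all together -/
theorem root_step {s : ℕ} {S : Finset V}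
    (ih : ∀ S' : Finset V, S'.card < S.card → StarC G s S' ∧ RootC G s S') : RootC G s S := by
  intro k R α β d c a hT hc ha hP hR hβ
  rcases hT.inv ⟨c, hc⟩ with ⟨k', v, rfl, hv, hT'⟩ | ⟨A, B, x, rfl, hA, hB, hsep, hTA, hTB⟩
  · exact root_apex ih k' R α β d c a v hv hT' hc ha hP hR hβ
  · by_cases hall : ∀ z ∈ A ∪ B, Conn G (A ∪ B) z c
    · -- the separating vertex lies on both sides
      obtain ⟨zA, hzA, hzA'⟩ := Finset.exists_of_ssubset hB
      obtain ⟨zB, hzB, hzB'⟩ := Finset.exists_of_ssubset hA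
      have hx : x ∈ A ∧ x ∈ B := by
        rcases Finset.mem_union.mp hc with hcA | hcB
        · obtain ⟨n, T, h1, h2⟩ := hall zB hzB
          obtain ⟨-, h3, h4, -⟩ := hsep.cross h1 h2 hzB' hcA
          exact ⟨h3, h4⟩
        · obtain ⟨n, T, h1, h2⟩ := hall zA hzA
          obtain ⟨-, h3, h4, -⟩ := hsep.symm.cross h1 (by rwa [Finset.union_comm]) hzA' hcB
          exact ⟨h4, h3⟩
      have ihA := (ih A (Finset.card_lt_card hA)).2
      have ihB := (ih B (Finset.card_lt_card hB)).2
      by_cases hcA : c ∈ A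
      · by_cases hcB : c ∈ B
        · have hcx := hsep.inter c hcA hcB
          subst hcx
          rw [Finset.erase_union_distrib]
          refine El.union d _ _ ?_ ?_ ?_
          · intro y hy z hz
            rw [Finset.mem_erase] at hy hz
            have hyB : y ∉ B := fun h => hy.1 (hsep.inter y hy.2 h)
            have hzA : z ∉ A := fun h => hz.1 (hsep.inter z h hz.2)
            exact ⟨fun e => hyB (e ▸ hz.2), hsep.noadj y hy.2 z hz.2 hyB hzA⟩
          · refine ihA k R α β d c a hTA hcA ha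
              (hP.subset (Finset.erase_subset_erase _ Finset.subset_union_left)) ?_ ?_
            · intro b hb hRb hbc
              have hb' : b ∈ A ∪ B := Finset.mem_union_left _ hb
              obtain ⟨⟨n, T, h1, h2⟩, h3⟩ := hR b hb' hRb hbc
              refine ⟨⟨n, T, h1, hsep.stay h1 h2 hb hcA⟩, ?_⟩
              intro n T h1 h2
              exact h3 n T h1 (h2.trans Finset.subset_union_left)
            · intro b hb hRb hbc
              exact hβ b (Finset.mem_union_left _ hb) hRb hbc
          · refine ihB k R α β d c a hTB hcB ha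
              (hP.subset (Finset.erase_subset_erase _ Finset.subset_union_right)) ?_ ?_
            · intro b hb hRb hbc
              have hb' : b ∈ A ∪ B := Finset.mem_union_right _ hb
              obtain ⟨⟨n, T, h1, h2⟩, h3⟩ := hR b hb' hRb hbc
              refine ⟨⟨n, T, h1, hsep.symm.stay h1 (by rwa [Finset.union_comm]) hb hcB⟩, ?_⟩
              intro n T h1 h2
              exact h3 n T h1 (h2.trans Finset.subset_union_right)
            · intro b hb hRb hbc
              exact hβ b (Finset.mem_union_right _ hb) hRb hbc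
        · exact root_sep hsep ihA ihB k R α β d c a hTA hTB hcA hcB hx.1 hx.2 ha hP hR hβ hall
      · have hcB : c ∈ B := by
          rcases Finset.mem_union.mp hc with h | h
          · exact absurd h hcA
          · exact h
        rw [Finset.union_comm] at hP hR hβ hall ⊢
        exact root_sep hsep.symm ihB ihA k R α β d c a hTB hTA hcB hcA hx.2 hx.1 ha hP hR hβ hall
    · -- pass to the component of the root
      push Not at hall
      obtain ⟨z, hz, hzc⟩ := hall
      have hsub := comp_subset (G := G) (A ∪ B) c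
      have hcard : (comp G (A ∪ B) c).card < (A ∪ B).card := by
        refine Finset.card_lt_card (Finset.ssubset_iff_subset_ne.mpr ⟨hsub, ?_⟩)
        intro e
        have h9 : z ∈ comp G (A ∪ B) c := by
          rw [e]
          exact hz
        exact hzc (mem_comp.mp h9).2
      have e : (A ∪ B).erase c =
          (comp G (A ∪ B) c).erase c ∪ ((A ∪ B) \ comp G (A ∪ B) c) := by
        ext y
        simp only [Finset.mem_erase, Finset.mem_union (s := (comp G (A ∪ B) c).erase c),
          Finset.mem_sdiff]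
        constructor
        · rintro ⟨h1, h2⟩
          by_cases hy : y ∈ comp G (A ∪ B) c
          · exact Or.inl ⟨h1, hy⟩
          · exact Or.inr ⟨h2, hy⟩
        · rintro (⟨h1, h2⟩ | ⟨h1, h2⟩)
          · exact ⟨h1, hsub h2⟩
          · refine ⟨?_, h1⟩
            rintro rfl
            exact h2 (self_mem_comp hc)
      rw [e]
      refine El.union d _ _ ?_ ?_ ?_
      · intro y hy z hz
        exact comp_rest y (Finset.mem_of_mem_erase hy) z hz
      · refine (ih _ hcard).2 k R α β d c a (hT.subset _ hsub) (self_mem_comp hc) ha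
          (hP.subset (Finset.erase_subset_erase _ hsub)) ?_ ?_
        · intro b hb hRb hbc
          refine ⟨comp_conn (mem_comp.mp hb).2, ?_⟩
          intro n T h1 h2
          exact (hR b (hsub hb) hRb hbc).2 n T h1 (h2.trans hsub)
        · intro b hb hRb hbc
          exact hβ b (hsub hb) hRb hbc
      · refine El.nil d _ ?_
        intro v hv hRv
        rw [Finset.mem_sdiff] at hv
        have hvc : v ≠ c := by
          rintro rfl
          exact hv.2 (self_mem_comp hc)
        exact hv.2 (mem_comp.mpr ⟨hv.1, (hR v hv.1 hRv hvc).1⟩)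

/-- star claim at an apex -/
theorem star_apex {s : ℕ} {S : Finset V}
    (ih : ∀ S' : Finset V, S'.card < S.card → StarC G s S' ∧ RootC G s S')
    (k : ℕ) (R : V → Prop) (α β : V → ℕ) (d : ℕ) (v : V) (hv : v ∈ S)
    (hT : T2 G k (S.erase v)) (hP : Pair G s R α S)
    (hβ : ∀ b ∈ S, R b → d + DD (k + 1) (s / 2 - α b) ≤ β b) : El G R β d S := by
  by_cases hsmall : ∀ b ∈ S, R b → α b + 1 ≤ s / 2
  · refine El.step d S v hv ?_ ?_
    · intro hRv
      have h1 := hβ v hv hRv
      have h2 := DD_pos k (s / 2 - α v)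
      omega
    · refine (ih _ (Finset.card_erase_lt_of_mem hv)).1 k R α β (d + 1) hT
        (hP.subset (Finset.erase_subset _ _)) ?_
      intro b hb hRb
      have hbS := Finset.mem_of_mem_erase hb
      have h1 := hβ b hbS hRb
      have h2 := hsmall b hbS hRb
      have h3 := L1 k (show 0 + 1 ≤ s / 2 - α b by omega)
      rw [DD_succ_zero] at h3
      omega
  · push Not at hsmall
    obtain ⟨b0, hb0, hRb0, hαb0⟩ := hsmall
    have h0 := hP.1 b0 hb0 hRb0
    have hs : 2 * α b0 + 1 = s := by omega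
    have hsub := comp_subset (G := G) S b0
    have hTS : T2 G (k + 1) S := T2.apex k S v hv hT
    have e : S = comp G S b0 ∪ (S \ comp G S b0) := by
      rw [Finset.union_sdiff_of_subset hsub]
    rw [e]
    refine El.union d _ _ comp_rest ?_ ?_
    · refine El.step d _ b0 (self_mem_comp hb0) ?_ ?_
      · intro _
        have h1 := hβ b0 hb0 hRb0
        have h2 := DD_pos k (s / 2 - α b0)
        omega
      · have hroot : RootC G s (comp G S b0) := root_step
          (fun S' h => ih S' (lt_of_lt_of_le h (Finset.card_le_card hsub)))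
        refine hroot (k + 1) R α β (d + 1) b0 (α b0) (hTS.subset _ hsub) (self_mem_comp hb0)
          (by omega) (hP.subset ((Finset.erase_subset _ _).trans hsub)) ?_ ?_
        · intro b hb hRb hbc
          refine ⟨comp_conn (mem_comp.mp hb).2, ?_⟩
          intro n T h1 h2
          have := hP.2 b (hsub hb) b0 hb0 hRb hRb0 hbc n T h1 (h2.trans hsub)
          omega
        · intro b hb hRb hbc
          have h1 := hβ b (hsub hb) hRb
          have h2 := DD_pos k (s / 2 - α b0)
          omega
    · have hsub2 : S \ comp G S b0 ⊆ S := Finset.sdiff_subset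
      have hcard : (S \ comp G S b0).card < S.card := by
        refine Finset.card_lt_card (Finset.ssubset_iff_subset_ne.mpr ⟨hsub2, ?_⟩)
        intro e
        have : b0 ∈ S \ comp G S b0 := e.symm ▸ hb0
        exact (Finset.mem_sdiff.mp this).2 (self_mem_comp hb0)
      refine (ih _ hcard).1 (k + 1) R α β d (hTS.subset _ hsub2) (hP.subset hsub2) ?_
      intro b hb hRb
      exact hβ b (hsub2 hb) hRb

/-- star claim at a separation with required vertices on both sides, the side `B` being short -/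
theorem star_glue {s : ℕ} {A B : Finset V} {x : V} (hsep : Sep G A B x)
    (ihA : StarC G s A) (ihB : RootC G s B)
    (k : ℕ) (R : V → Prop) (α β : V → ℕ) (d : ℕ)
    (hTA : T2 G k A) (hTB : T2 G k B) (hxA : x ∈ A) (hxB : x ∈ B)
    (hP : Pair G s R α (A ∪ B))
    (hβ : ∀ b ∈ A ∪ B, R b → d + DD k (s / 2 - α b) ≤ β b)
    (hconnB : ∀ z ∈ B, z ≠ x → Conn G B z x)
    (hcat : ∀ b ∈ B, b ≠ x → ∀ n T, IP G b x n T → T ⊆ B → ∀ w m T', IP G x w m T' → T' ⊆ A →
      IP G b w (n + m - 1) (T ∪ T'))
    (aB : ℕ) (b0 : V) (n0 : ℕ) (T0 : Finset V) (hb0 : b0 ∈ B) (hb0x : b0 ≠ x) (hRb0 : R b0)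
    (hIP0 : IP G b0 x n0 T0) (hT0 : T0 ⊆ B) (haB : aB + 1 = n0 + α b0)
    (hmax : ∀ b n T, b ∈ B → b ≠ x → R b → IP G b x n T → T ⊆ B → n + α b ≤ aB + 1)
    (haBs : 2 * aB + 1 ≤ s) :
    El G R β d (A ∪ B) := by
  have hAS : A ⊆ A ∪ B := Finset.subset_union_left
  have hBS : B ⊆ A ∪ B := Finset.subset_union_right
  have hBnA : ∀ y ∈ B, y ≠ x → y ∉ A := fun y hy hyx hyA => hyx (hsep.inter y hyA hy)
  have hfin : A ∪ B = A ∪ B.erase x := by
    ext y
    simp only [Finset.mem_erase, Finset.mem_union]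
    constructor
    · rintro (h2 | h2)
      · exact Or.inl h2
      · by_cases hyx : y = x
        · subst hyx
          exact Or.inl hxA
        · exact Or.inr ⟨hyx, h2⟩
    · rintro (h2 | ⟨h1, h2⟩)
      · exact Or.inl h2
      · exact Or.inr h2
  have hno : ∀ y ∈ A, y ≠ x → ∀ z ∈ B.erase x, y ≠ z ∧ ¬ G.Adj y z := by
    intro y hy hyx z hz
    rw [Finset.mem_erase] at hz
    have hyB : y ∉ B := fun h => hyx (hsep.inter y hy h)
    have hzA : z ∉ A := hBnA z hz.2 hz.1
    exact ⟨fun e => hyB (e ▸ hz.2), hsep.noadj y hy z hz.2 hyB hzA⟩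
  let ax : ℕ := if R x then α x else 0
  let R' : V → Prop := fun v => R v ∨ v = x
  let α' : V → ℕ := fun v => if v = x then max ax aB else α v
  let β' : V → ℕ := fun v => if v = x then d + DD k (s / 2 - max ax aB) else β v
  have hα'x : α' x = max ax aB := if_pos rfl
  have hβ'x : β' x = d + DD k (s / 2 - max ax aB) := if_pos rfl
  have hα' : ∀ v, v ≠ x → α' v = α v := fun v hv => if_neg hv
  have hβ' : ∀ v, v ≠ x → β' v = β v := fun v hv => if_neg hv
  have haxR : R x → ax = α x := fun h => if_pos h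
  have haxN : ¬ R x → ax = 0 := fun h => if_neg h
  have hcase : α' x = aB ∨ (R x ∧ α' x = α x) := by
    rw [hα'x]
    by_cases hRx : R x
    · rcases le_total ax aB with h | h
      · exact Or.inl (max_eq_right h)
      · exact Or.inr ⟨hRx, by rw [max_eq_left h, haxR hRx]⟩
    · left
      rw [haxN hRx]
      simp
  have hElA : El G R' β' d A := by
    refine ihA k R' α' β' d hTA ⟨?_, ?_⟩ ?_
    · intro b hb hRb
      by_cases hbx : b = x
      · subst hbx
        rcases hcase with h | ⟨h1, h2⟩
        · rw [h]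
          exact haBs
        · rw [h2]
          exact hP.1 b (hAS hb) h1
      · rw [hα' b hbx]
        exact hP.1 b (hAS hb) (hRb.resolve_right hbx)
    · have key : ∀ b ∈ A, R' b → b ≠ x → ∀ n T, IP G b x n T → T ⊆ A →
          n + α' b + α' x ≤ s := by
        intro b hb hRb hbx n T h1 h2
        rw [hα' b hbx]
        have hRb' := hRb.resolve_right hbx
        rcases hcase with h | ⟨h3, h4⟩
        · rw [h]
          have h5 := hcat b0 hb0 hb0x n0 T0 hIP0 hT0 b n T h1.symm h2
          have hne : b0 ≠ b := by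
            rintro rfl
            exact hBnA b0 hb0 hb0x hb
          have h6 := hP.2 b0 (hBS hb0) b (hAS hb) hRb0 hRb' hne _ _ h5
            (Finset.union_subset (hT0.trans hBS) (h2.trans hAS))
          have h7 := h1.two hbx
          omega
        · rw [h4]
          exact hP.2 b (hAS hb) x (hAS hxA) hRb' h3 hbx n T h1 (h2.trans hAS)
      intro b hb b' hb' hRb hRb' hne n T h1 h2
      by_cases hbx : b = x
      · subst hbx
        have := key b' hb' hRb' (fun h => hne h.symm) n T h1.symm h2
        omega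
      · by_cases hbx' : b' = x
        · subst hbx'
          exact key b hb hRb hbx n T h1 h2
        · rw [hα' b hbx, hα' b' hbx']
          exact hP.2 b (hAS hb) b' (hAS hb') (hRb.resolve_right hbx)
            (hRb'.resolve_right hbx') hne n T h1 (h2.trans hAS)
    · intro b hb hRb
      by_cases hbx : b = x
      · subst hbx
        rw [hα'x, hβ'x]
      · rw [hα' b hbx, hβ' b hbx]
        exact hβ b (hAS hb) (hRb.resolve_right hbx)
  have hElB : El G R β (β' x) (B.erase x) := by
    refine ihB k R α β (β' x) x aB hTB hxB haBs ?_ ?_ ?_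
    · exact hP.subset ((Finset.erase_subset _ _).trans hBS)
    · intro b hb hRb hbx
      exact ⟨hconnB b hb hbx, fun n T h1 h2 => hmax b n T hb hbx hRb h1 h2⟩
    · intro b hb hRb hbx
      have h1 := hβ b (hBS hb) hRb
      have h2 : DD k (s / 2 - max ax aB) ≤ DD k (s / 2 - aB) :=
        DD_mono k (by have := le_max_right ax aB; omega)
      rw [hβ'x]
      omega
  rw [hfin]
  refine (El.graft (R' := R') (β' := β') hno (Finset.notMem_erase _ _) ?_
    (Or.inl ⟨Or.inr rfl, hElB⟩) hElA subset_rfl).1 hxA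
  intro v hv hRv
  refine ⟨Or.inl hRv, ?_⟩
  by_cases hvx : v = x
  · subst hvx
    rw [hβ'x]
    have h1 := hβ v (hAS hxA) hRv
    have h2 : DD k (s / 2 - max ax aB) ≤ DD k (s / 2 - α v) := by
      apply DD_mono k
      have := le_max_left ax aB
      rw [haxR hRv] at this ⊢
      omega
    omega
  · rw [hβ' v hvx]

/-- one side carries no required vertex besides `x` -/
theorem star_trivial {s : ℕ} {A B : Finset V} {x : V} (hsep : Sep G A B x)
    (ihA : StarC G s A)
    (k : ℕ) (R : V → Prop) (α β : V → ℕ) (d : ℕ)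
    (hTA : T2 G k A) (hxA : x ∈ A)
    (hP : Pair G s R α (A ∪ B))
    (hβ : ∀ b ∈ A ∪ B, R b → d + DD k (s / 2 - α b) ≤ β b)
    (hRB : ∀ b ∈ B, b ≠ x → ¬ R b) : El G R β d (A ∪ B) := by
  have hfin : A ∪ B = A ∪ B.erase x := by
    ext y
    simp only [Finset.mem_erase, Finset.mem_union]
    constructor
    · rintro (h2 | h2)
      · exact Or.inl h2
      · by_cases hyx : y = x
        · subst hyx
          exact Or.inl hxA
        · exact Or.inr ⟨hyx, h2⟩
    · rintro (h2 | ⟨h1, h2⟩)
      · exact Or.inl h2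
      · exact Or.inr h2
  have hno : ∀ y ∈ A, y ≠ x → ∀ z ∈ B.erase x, y ≠ z ∧ ¬ G.Adj y z := by
    intro y hy hyx z hz
    rw [Finset.mem_erase] at hz
    have hyB : y ∉ B := fun h => hyx (hsep.inter y hy h)
    have hzA : z ∉ A := fun h => hz.1 (hsep.inter z h hz.2)
    exact ⟨fun e => hyB (e ▸ hz.2), hsep.noadj y hy z hz.2 hyB hzA⟩
  have hElA : El G R β d A := ihA k R α β d hTA (hP.subset Finset.subset_union_left)
    (fun b hb hRb => hβ b (Finset.mem_union_left _ hb) hRb)
  rw [hfin]
  refine (El.graft (R' := R) (β' := β) hno (Finset.notMem_erase _ _) ?_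
    (Or.inr ?_) hElA subset_rfl).1 hxA
  · intro v hv hRv
    exact ⟨hRv, le_refl _⟩
  · intro b hb
    rw [Finset.mem_erase] at hb
    exact hRB b hb.2 hb.1

theorem star_step {s : ℕ} {S : Finset V}
    (ih : ∀ S' : Finset V, S'.card < S.card → StarC G s S' ∧ RootC G s S') : StarC G s S := by
  intro k R α β d hT hP hβ
  by_cases hne : S.Nonempty
  swap
  · rw [Finset.not_nonempty_iff_eq_empty] at hne
    subst hne
    exact El.nil d _ (by simp)
  rcases hT.inv hne with ⟨k', v, rfl, hv, hT'⟩ | ⟨A, B, x, rfl, hA, hB, hsep, hTA, hTB⟩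
  · exact star_apex ih k' R α β d v hv hT' hP hβ
  · have hAS : A ⊆ A ∪ B := Finset.subset_union_left
    have hBS : B ⊆ A ∪ B := Finset.subset_union_right
    obtain ⟨ihA, ihA'⟩ := ih A (Finset.card_lt_card hA)
    obtain ⟨ihB, ihB'⟩ := ih B (Finset.card_lt_card hB)
    by_cases hx : x ∈ A ∧ x ∈ B
    swap
    · refine El.union d A B ?_ ?_ ?_
      · intro y hy z hz
        have hAB : ∀ w ∈ A, w ∉ B := by
          intro w hw hw'
          have := hsep.inter w hw hw'
          subst this
          exact hx ⟨hw, hw'⟩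
        exact ⟨fun e => hAB y hy (e ▸ hz), hsep.noadj y hy z hz (hAB y hy)
          (fun h => hAB z h hz)⟩
      · exact ihA k R α β d hTA (hP.subset hAS) (fun b hb => hβ b (hAS hb))
      · exact ihB k R α β d hTB (hP.subset hBS) (fun b hb => hβ b (hBS hb))
    obtain ⟨hxA, hxB⟩ := hx
    by_cases hall : ∀ z ∈ A ∪ B, Conn G (A ∪ B) z x
    · have hconnA : ∀ z ∈ A, z ≠ x → Conn G A z x := by
        intro z hz _
        obtain ⟨n, T, h1, h2⟩ := hall z (hAS hz)
        exact ⟨n, T, h1, hsep.stay h1 h2 hz hxA⟩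
      have hconnB : ∀ z ∈ B, z ≠ x → Conn G B z x := by
        intro z hz _
        obtain ⟨n, T, h1, h2⟩ := hall z (hBS hz)
        exact ⟨n, T, h1, hsep.symm.stay h1 (by rwa [Finset.union_comm]) hz hxB⟩
      have hcat : ∀ (A B : Finset V), Sep G A B x →
          ∀ b ∈ B, b ≠ x → ∀ n T, IP G b x n T → T ⊆ B → ∀ w m T', IP G x w m T' →
          T' ⊆ A → IP G b w (n + m - 1) (T ∪ T') := by
        intro A B hsep b hb hbx n T h1 h2 w m T' h3 h4
        refine h1.concat h3 ?_ ?_
        · intro y hy hy'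
          exact hsep.inter y (h4 hy') (h2 hy)
        · intro y hy z hz hyx hzx hadj
          refine hsep.noadj z (h4 hz) y (h2 hy) ?_ ?_ hadj.symm
          · exact fun h => hzx (hsep.inter z (h4 hz) h)
          · exact fun h => hyx (hsep.inter y h (h2 hy))
      by_cases hRB : ∃ b ∈ B, b ≠ x ∧ R b
      · by_cases hRA : ∃ b ∈ A, b ≠ x ∧ R b
        · have hboth : ∀ b ∈ B, b ≠ x → R b → ∀ n T, IP G b x n T → T ⊆ B →
              ∀ b' ∈ A, b' ≠ x → R b' → ∀ m T', IP G b' x m T' → T' ⊆ A →
              n + α b + (m + α b') ≤ s + 1 := by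
            intro b hb hbx hRb n T h1 h2 b' hb' hbx' hRb' m T' h3 h4
            have h5 := hcat A B hsep b hb hbx n T h1 h2 b' m T' h3.symm h4
            have hne : b ≠ b' := by
              rintro rfl
              exact hbx (hsep.inter b hb' hb)
            have h6 := hP.2 b (hBS hb) b' (hAS hb') hRb hRb' hne _ _ h5
              (Finset.union_subset (h2.trans hBS) (h4.trans hAS))
            have h7 := h1.two hbx
            omega
          obtain ⟨aB, ⟨b0, n0, T0, hb0, hb0x, hRb0, hIP0, hT0, haB⟩, hmaxB⟩ := exists_max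
            (fun m => ∃ b n T, b ∈ B ∧ b ≠ x ∧ R b ∧ IP G b x n T ∧ T ⊆ B ∧ m + 1 = n + α b) s
            (by
              obtain ⟨b, hb, hbx, hRb⟩ := hRB
              obtain ⟨n, T, h1, h2⟩ := hconnB b hb hbx
              have := h1.two hbx
              exact ⟨n + α b - 1, b, n, T, hb, hbx, hRb, h1, h2, by omega⟩)
            (by
              rintro m ⟨b, n, T, hb, hbx, hRb, h1, h2, h3⟩
              obtain ⟨b', hb', hbx', hRb'⟩ := hRA
              obtain ⟨n', T', h1', h2'⟩ := hconnA b' hb' hbx'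
              have h4 := hboth b hb hbx hRb n T h1 h2 b' hb' hbx' hRb' n' T' h1' h2'
              have h5 := h1'.two hbx'
              omega)
          obtain ⟨aA, ⟨b1, n1, T1, hb1, hb1x, hRb1, hIP1, hT1, haA⟩, hmaxA⟩ := exists_max
            (fun m => ∃ b n T, b ∈ A ∧ b ≠ x ∧ R b ∧ IP G b x n T ∧ T ⊆ A ∧ m + 1 = n + α b) s
            (by
              obtain ⟨b, hb, hbx, hRb⟩ := hRA
              obtain ⟨n, T, h1, h2⟩ := hconnA b hb hbx
              have := h1.two hbx
              exact ⟨n + α b - 1, b, n, T, hb, hbx, hRb, h1, h2, by omega⟩)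
            (by
              rintro m ⟨b, n, T, hb, hbx, hRb, h1, h2, h3⟩
              obtain ⟨b', hb', hbx', hRb'⟩ := hRB
              obtain ⟨n', T', h1', h2'⟩ := hconnB b' hb' hbx'
              have h4 := hboth b' hb' hbx' hRb' n' T' h1' h2' b hb hbx hRb n T h1 h2
              have h5 := h1'.two hbx'
              omega)
          have hmaxB' : ∀ b n T, b ∈ B → b ≠ x → R b → IP G b x n T → T ⊆ B →
              n + α b ≤ aB + 1 := by
            intro b n T hb hbx hRb h1 h2
            have h3 := h1.two hbx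
            have := hmaxB (n + α b - 1) ⟨b, n, T, hb, hbx, hRb, h1, h2, by omega⟩
            omega
          have hmaxA' : ∀ b n T, b ∈ A → b ≠ x → R b → IP G b x n T → T ⊆ A →
              n + α b ≤ aA + 1 := by
            intro b n T hb hbx hRb h1 h2
            have h3 := h1.two hbx
            have := hmaxA (n + α b - 1) ⟨b, n, T, hb, hbx, hRb, h1, h2, by omega⟩
            omega
          have hsum := hboth b0 hb0 hb0x hRb0 n0 T0 hIP0 hT0 b1 hb1 hb1x hRb1 n1 T1 hIP1 hT1
          by_cases hlt : 2 * aB + 1 ≤ s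
          · exact star_glue hsep ihA ihB' k R α β d hTA hTB hxA hxB hP hβ hconnB (hcat A B hsep)
              aB b0 n0 T0 hb0 hb0x hRb0 hIP0 hT0 haB hmaxB' hlt
          · have hlt' : 2 * aA + 1 ≤ s := by omega
            rw [Finset.union_comm] at hP hβ ⊢
            exact star_glue hsep.symm ihB ihA' k R α β d hTB hTA hxB hxA hP hβ hconnA
              (hcat B A hsep.symm)
              aA b1 n1 T1 hb1 hb1x hRb1 hIP1 hT1 haA hmaxA' hlt'
        · push Not at hRA
          rw [Finset.union_comm] at hP hβ ⊢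
          exact star_trivial hsep.symm ihB k R α β d hTB hxB hP hβ hRA
      · push Not at hRB
        exact star_trivial hsep ihA k R α β d hTA hxA hP hβ hRB
    · push Not at hall
      obtain ⟨z, hz, hzc⟩ := hall
      have hsub := comp_subset (G := G) (A ∪ B) x
      have hcard : (comp G (A ∪ B) x).card < (A ∪ B).card := by
        refine Finset.card_lt_card (Finset.ssubset_iff_subset_ne.mpr ⟨hsub, ?_⟩)
        intro e
        have h9 : z ∈ comp G (A ∪ B) x := by
          rw [e]
          exact hz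
        exact hzc (mem_comp.mp h9).2
      have hsub2 : (A ∪ B) \ comp G (A ∪ B) x ⊆ A ∪ B := Finset.sdiff_subset
      have hcard2 : ((A ∪ B) \ comp G (A ∪ B) x).card < (A ∪ B).card := by
        refine Finset.card_lt_card (Finset.ssubset_iff_subset_ne.mpr ⟨hsub2, ?_⟩)
        intro e
        have hxS : x ∈ A ∪ B := hAS hxA
        rw [← e] at hxS
        exact (Finset.mem_sdiff.mp hxS).2 (self_mem_comp (hAS hxA))
      have e : A ∪ B = comp G (A ∪ B) x ∪ ((A ∪ B) \ comp G (A ∪ B) x) :=
        (Finset.union_sdiff_of_subset hsub).symm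
      rw [e]
      refine El.union d _ _ comp_rest ?_ ?_
      · exact (ih _ hcard).1 k R α β d (hT.subset _ hsub) (hP.subset hsub)
          (fun b hb => hβ b (hsub hb))
      · exact (ih _ hcard2).1 k R α β d (hT.subset _ hsub2) (hP.subset hsub2)
          (fun b hb => hβ b (hsub2 hb))

theorem all_claims (s : ℕ) (n : ℕ) : ∀ S : Finset V, S.card = n → StarC G s S ∧ RootC G s S := by
  induction n using Nat.strong_induction_on with
  | _ n ih =>
    intro S hS
    have ih' : ∀ S' : Finset V, S'.card < S.card → StarC G s S' ∧ RootC G s S' :=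
      fun S' h => ih S'.card (hS ▸ h) S' rfl
    exact ⟨star_step ih', root_step ih'⟩

/-! ### Treedepth -/

/-- `TDle G d S`: `G[S]` has treedepth at most `d` -/
inductive TDle (G : SimpleGraph V) : ℕ → Finset V → Prop
  | empty (d : ℕ) : TDle G d ∅
  | apex (d : ℕ) (S : Finset V) (v : V) : v ∈ S → TDle G d (S.erase v) → TDle G (d + 1) S
  | union (d : ℕ) (A B : Finset V) : (∀ a ∈ A, ∀ b ∈ B, a ≠ b ∧ ¬ G.Adj a b) →
      TDle G d A → TDle G d B → TDle G d (A ∪ B)

theorem El.toTD {D d : ℕ} {S : Finset V} (h : El G (fun _ => True) (fun _ => D) d S) :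
    S.Nonempty → d ≤ D := by
  induction h with
  | nil d S h =>
    rintro ⟨v, hv⟩
    exact absurd trivial (h v hv)
  | step d S v hv hβ _ ih =>
    intro _
    have := hβ trivial
    omega
  | union d A B hn _ _ ihA ihB =>
    rintro ⟨v, hv⟩
    rcases Finset.mem_union.mp hv with hv | hv
    · exact ihA ⟨v, hv⟩
    · exact ihB ⟨v, hv⟩

theorem El.toTD' {D d : ℕ} {S : Finset V} (h : El G (fun _ => True) (fun _ => D) d S) :
    TDle G (D - d) S := by
  induction h with
  | nil d S h =>
    have : S = ∅ := by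
      rw [Finset.eq_empty_iff_forall_notMem]
      exact fun v hv => h v hv trivial
    subst this
    exact TDle.empty _
  | step d S v hv hβ _ ih =>
    have := hβ trivial
    have e : D - d = (D - (d + 1)) + 1 := by omega
    rw [e]
    exact TDle.apex _ S v hv ih
  | union d A B hn _ _ ihA ihB => exact TDle.union _ A B hn ihA ihB

/-- **Upper bound.** -/
theorem upper (k t : ℕ) (ht : 2 ≤ t) (S : Finset V) (hT : T2 G k S)
    (hfree : ∀ b ∈ S, ∀ b' ∈ S, ∀ n T, IP G b b' n T → T ⊆ S → n ≤ t - 1) :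
    TDle G (DD k ((t - 1) / 2)) S := by
  have h := (all_claims (G := G) (t - 1) S.card S rfl).1 k (fun _ => True) (fun _ => 0)
    (fun _ => DD k ((t - 1) / 2)) 0 hT ⟨?_, ?_⟩ ?_
  · have := h.toTD'
    simpa using this
  · intro b _ _
    show 2 * 0 + 1 ≤ t - 1
    omega
  · intro b hb b' hb' _ _ _ n T h1 h2
    have := hfree b hb b' hb' n T h1 h2
    omega
  · intro b _ _
    simp

end Q109.TD2
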